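import Pool.Agent.N782.GN.StmB

/-!
# Project GN (helper782), CNT: counting Gaussian integers (helper407)
-/

set_option autoImplicit false

namespace Pool.Agent.N407.GN

open Finset
open Pool.Agent.N782.GN

theorem prim_param {a b x y : ℤ} (hg : Int.gcd a b = 1) (h : a * y = b * x) :
    ∃ j : ℤ, x = j * a ∧ y = j * b := by
  have h1 := Int.gcd_eq_gcd_ab a b
  rw [hg, Nat.cast_one] at h1
  refine ⟨Int.gcdA a b * x + Int.gcdB a b * y, ?_, ?_⟩
  · linear_combination x * h1 - Int.gcdB a b * h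
  · linear_combination y * h1 + Int.gcdA a b * h

theorem nz_sub_le (u v : ZI) : nz (u - v) ≤ 2 * nz u + 2 * nz v := by
  rw [nz_eq, nz_eq, nz_eq, Zsqrtd.re_sub, Zsqrtd.im_sub]
  push_cast
  nlinarith [sq_nonneg ((u.re : ℝ) + v.re), sq_nonneg ((u.im : ℝ) + v.im)]

theorem card_bl (X : ℝ) : ((bl X).card : ℝ) ≤ (2 * Real.sqrt X + 1) ^ 2 := by
  classical
  unfold bl
  have h1 := (Finset.card_filter_le (((Icc (-(⌊Real.sqrt X⌋₊ : ℤ)) ⌊Real.sqrt X⌋₊) ×ˢ
    (Icc (-(⌊Real.sqrt X⌋₊ : ℤ)) ⌊Real.sqrt X⌋₊)).image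
    (fun p : ℤ × ℤ => (⟨p.1, p.2⟩ : ZI))) (fun z => z ≠ 0 ∧ nz z ≤ X)).trans Finset.card_image_le
  rw [Finset.card_product, Int.card_Icc] at h1
  have h2 : ((⌊Real.sqrt X⌋₊ : ℤ) + 1 - -(⌊Real.sqrt X⌋₊ : ℤ)).toNat = 2 * ⌊Real.sqrt X⌋₊ + 1 := by
    omega
  rw [h2] at h1
  have h3 : ((⌊Real.sqrt X⌋₊ : ℕ) : ℝ) ≤ Real.sqrt X := Nat.floor_le (Real.sqrt_nonneg X)
  refine (show ((_ : ℕ) : ℝ) ≤ (((2 * ⌊Real.sqrt X⌋₊ + 1) * (2 * ⌊Real.sqrt X⌋₊ + 1) : ℕ) : ℝ) from
    by exact_mod_cast h1).trans ?_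
  push_cast
  rw [sq]
  have h4 : (0 : ℝ) ≤ ⌊Real.sqrt X⌋₊ := Nat.cast_nonneg _
  exact mul_le_mul (by linarith) (by linarith) (by positivity) (by positivity)

theorem mem_cw {R : ℝ} {w : ZI} (h : w ∈ cw R) : nz w ≤ 4 * R ^ 2 ∧ R ^ 2 < nz w ∧ ct w = 1 := by
  classical
  unfold cw at h
  rw [mem_filter, mem_bl] at h
  exact ⟨h.1.2, h.2⟩

/-- (CNT) counting -/
theorem cnt : S_CNT := by
  classical
  refine ⟨25, by norm_num, fun R hR => ⟨?_, ?_, ?_⟩⟩
  · have h1 : ((cw R).card : ℝ) ≤ ((bl (4 * R ^ 2)).card : ℝ) := by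
      unfold cw
      exact_mod_cast Finset.card_filter_le _ _
    refine h1.trans ((card_bl _).trans ?_)
    have h2 : Real.sqrt (4 * R ^ 2) = 2 * R := by
      rw [show 4 * R ^ 2 = (2 * R) ^ 2 by ring, Real.sqrt_sq (by linarith)]
    rw [h2]
    nlinarith
  · intro w hw D
    obtain ⟨-, hw2, hw3⟩ := mem_cw hw
    rcases ((cw R).filter (fun w2 => dl w w2 = D)).eq_empty_or_nonempty with he | ⟨v, hv⟩
    · rw [he]
      simp
    rw [mem_filter] at hv
    have hsub : (cw R).filter (fun w2 => dl w w2 = D) ⊆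
        (Icc (-3 : ℤ) 3).image (fun j => (⟨v.re + j * w.re, v.im + j * w.im⟩ : ZI)) := by
      intro u hu
      rw [mem_filter] at hu
      have h1 : dl w u = dl w v := hu.2.trans hv.2.symm
      unfold dl at h1
      obtain ⟨j, hj1, hj2⟩ := prim_param (a := w.re) (b := w.im) (x := u.re - v.re)
        (y := u.im - v.im) hw3 (by linear_combination h1)
      rw [mem_image]
      refine ⟨j, ?_, ?_⟩
      · have h2 := nz_sub_le u v
        have h3 := (mem_cw hu.1).1
        have h4 := (mem_cw hv.1).1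
        have h5 : nz (u - v) = (j : ℝ) ^ 2 * nz w := by
          rw [nz_eq, nz_eq, Zsqrtd.re_sub, Zsqrtd.im_sub, hj1, hj2]
          push_cast
          ring
        rw [h5] at h2
        have h6 : (j : ℝ) ^ 2 * R ^ 2 ≤ 16 * R ^ 2 :=
          (mul_le_mul_of_nonneg_left hw2.le (sq_nonneg _)).trans (by linarith)
        have hR2 : 0 < R ^ 2 := by positivity
        have h7 : (j : ℝ) ^ 2 < 16 := by
          rcases eq_or_ne j 0 with h0 | h0
          · rw [h0]
            norm_num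
          · have hj : 0 < (j : ℝ) ^ 2 := by positivity
            have h8 : (j : ℝ) ^ 2 * R ^ 2 < 16 * R ^ 2 :=
              (mul_lt_mul_of_pos_left hw2 hj).trans_le (by linarith)
            exact lt_of_mul_lt_mul_right h8 hR2.le
        have h9 : j ^ 2 < 16 := by exact_mod_cast h7
        rw [mem_Icc]
        constructor <;> nlinarith
      · rw [Zsqrtd.ext_iff]
        simp only
        constructor <;> linarith
    have h2 := (Finset.card_le_card hsub).trans Finset.card_image_le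
    have h3 : (Icc (-3 : ℤ) 3).card = 7 := by decide
    rw [h3] at h2
    have h4 : ((((cw R).filter (fun w2 => dl w w2 = D)).card : ℕ) : ℝ) ≤ 7 := by exact_mod_cast h2
    linarith
  · intro w hw P L hRP hL
    obtain ⟨-, hw2, hw3⟩ := mem_cw hw
    have hR0 : 0 < R := by linarith
    have hP0 : 0 < P := by linarith
    set S := (bl (9 * P ^ 2)).filter (fun v => 1 ≤ (w * v).re ∧ (((w * v).re : ℤ) : ℝ) ≤ L) with hS
    have hmap : ∀ v ∈ S, (w * v).re ∈ Icc (1 : ℤ) ⌊L⌋ := by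
      intro v hv
      rw [hS, mem_filter] at hv
      rw [mem_Icc]
      exact ⟨hv.2.1, Int.le_floor.2 hv.2.2⟩
    have hPR : 1 ≤ P / R := by
      rw [le_div_iff₀ hR0]
      linarith
    have hfib : ∀ l ∈ Icc (1 : ℤ) ⌊L⌋, ((S.filter (fun v => (w * v).re = l)).card : ℝ) ≤
        13 * (P / R) := by
      intro l _
      rcases (S.filter (fun v => (w * v).re = l)).eq_empty_or_nonempty with he | ⟨v, hv⟩
      · rw [he]
        simp only [card_empty, Nat.cast_zero]
        linarith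
      rw [mem_filter] at hv
      have hsub : S.filter (fun v => (w * v).re = l) ⊆
          (Icc (-⌊6 * (P / R)⌋) ⌊6 * (P / R)⌋).image
            (fun j => (⟨v.re + j * w.im, v.im + j * w.re⟩ : ZI)) := by
        intro u hu
        rw [mem_filter] at hu
        have h1 : (w * u).re = (w * v).re := hu.2.trans hv.2.symm
        rw [Zsqrtd.re_mul, Zsqrtd.re_mul] at h1
        obtain ⟨j, hj1, hj2⟩ := prim_param (a := w.im) (b := w.re) (x := u.re - v.re)
          (y := u.im - v.im) (by rw [Int.gcd_comm]; exact hw3) (by linear_combination -h1)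
        rw [mem_image]
        refine ⟨j, ?_, ?_⟩
        · have h2 := nz_sub_le u v
          have h3 : nz u ≤ 9 * P ^ 2 := ((mem_bl _ _).1 (mem_filter.1 hu.1).1).2
          have h4 : nz v ≤ 9 * P ^ 2 := ((mem_bl _ _).1 (mem_filter.1 hv.1).1).2
          have h5 : nz (u - v) = (j : ℝ) ^ 2 * nz w := by
            rw [nz_eq, nz_eq, Zsqrtd.re_sub, Zsqrtd.im_sub, hj1, hj2]
            push_cast
            ring
          rw [h5] at h2
          have h6 : (j : ℝ) ^ 2 * R ^ 2 ≤ 36 * P ^ 2 :=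
            (mul_le_mul_of_nonneg_left hw2.le (sq_nonneg _)).trans (by linarith)
          have h7 : (j : ℝ) ^ 2 ≤ (6 * (P / R)) ^ 2 := by
            rw [mul_pow, div_pow, ← mul_div_assoc, le_div_iff₀ (by positivity)]
            linarith
          have h8 := abs_le_of_sq_le_sq' h7 (by positivity)
          rw [mem_Icc]
          constructor
          · rw [neg_le, Int.le_floor]
            push_cast
            linarith [h8.1]
          · exact Int.le_floor.2 h8.2
        · rw [Zsqrtd.ext_iff]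
          simp only
          constructor <;> linarith
      have h2 := (Finset.card_le_card hsub).trans Finset.card_image_le
      rw [Int.card_Icc] at h2
      have hf0 : 0 ≤ ⌊6 * (P / R)⌋ := Int.floor_nonneg.2 (by positivity)
      have h3 : (((⌊6 * (P / R)⌋ + 1 - -⌊6 * (P / R)⌋).toNat : ℕ) : ℝ) ≤ 13 * (P / R) := by
        have h4 : (((⌊6 * (P / R)⌋ + 1 - -⌊6 * (P / R)⌋).toNat : ℕ) : ℤ) =
            2 * ⌊6 * (P / R)⌋ + 1 := by omega
        have h5 : (((⌊6 * (P / R)⌋ + 1 - -⌊6 * (P / R)⌋).toNat : ℕ) : ℝ) =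
            2 * (⌊6 * (P / R)⌋ : ℝ) + 1 := by exact_mod_cast h4
        rw [h5]
        have h6 := Int.floor_le (6 * (P / R))
        linarith
      exact (show ((_ : ℕ) : ℝ) ≤ ((_ : ℕ) : ℝ) from by exact_mod_cast h2).trans h3
    have h1 := Finset.card_eq_sum_card_fiberwise hmap
    have h2 : (S.card : ℝ) = ∑ l ∈ Icc (1 : ℤ) ⌊L⌋, ((S.filter (fun v => (w * v).re = l)).card : ℝ) := by
      rw [h1]
      push_cast
      rfl
    rw [h2]
    refine (Finset.sum_le_sum hfib).trans ?_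
    rw [Finset.sum_const, Int.card_Icc, nsmul_eq_mul]
    have hfl : 1 ≤ ⌊L⌋ := Int.le_floor.2 (by exact_mod_cast hL)
    have h3 : (((⌊L⌋ + 1 - 1).toNat : ℕ) : ℝ) ≤ L := by
      have h4 : (((⌊L⌋ + 1 - 1).toNat : ℕ) : ℤ) = ⌊L⌋ := by omega
      have h5 : (((⌊L⌋ + 1 - 1).toNat : ℕ) : ℝ) = (⌊L⌋ : ℝ) := by exact_mod_cast h4
      rw [h5]
      exact Int.floor_le L
    have h4 : (((⌊L⌋ + 1 - 1).toNat : ℕ) : ℝ) * (13 * (P / R)) ≤ L * (13 * (P / R)) :=
      mul_le_mul_of_nonneg_right h3 (by positivity)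
    have h5 : 25 * L * P / R = 25 * (L * (P / R)) := by ring
    have h6 : 0 ≤ L * (P / R) := by positivity
    linarith

end Pool.Agent.N407.GN
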