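import Pool.Agent.N782.GN.StmT
import Pool.Agent.H304R3.HK.LgB
import Pool.Agent.H510R2.Div

/-!
# Project GN (helper782), DVB: the divisor bound in `ℤ[i]` (helper407)
-/

set_option autoImplicit false

namespace Pool.Agent.N407.GN

open Finset
open Pool.Agent.N782.GN
open Pool.Agent.H304R3.HK (UH bb LamK CS)

/-- the trivial function -/
noncomputable def one0 : GaussianInt →* ℂ where
  toFun a := if a = 0 then 0 else 1
  map_one' := by simp
  map_mul' a b := by
    by_cases ha : a = 0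
    · simp [ha]
    · by_cases hb : b = 0
      · simp [hb]
      · simp [ha, hb]

/-- the number of representations as a sum of two squares (proof of `H385.H10.CS_card`) -/
theorem CS_card (n : ℕ) (hn : 1 ≤ n) : (CS n).card ≤ 4 * n.divisors.card := by
  have hU : UH one0 := by
    refine ⟨by simp [one0], fun a => ?_, ?_⟩
    · show ‖(if a = 0 then 0 else 1 : ℂ)‖ ≤ 1
      split_ifs <;> simp
    · show (if (⟨0, 1⟩ : GaussianInt) = 0 then 0 else 1 : ℂ) = 1
      rw [if_neg]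
      intro h
      have := congrArg Zsqrtd.im h
      simp at this
  have h1 := (Pool.Agent.H304R3.HK.lg_bb_of Pool.Agent.H304R3.HK.bb_zero
    Pool.Agent.H304R3.HK.bb_two_odd Pool.Agent.H304R3.HK.ts_bound
    Pool.Agent.H304R3.HK.f_bound Pool.Agent.H304R3.HK.gen_log one0 hU).bd n
  have h2 : bb one0 n = (1 / 4 : ℂ) * (CS n).card := by
    unfold bb
    congr 1
    rw [Finset.sum_congr rfl (g := fun _ => (1 : ℂ)), Finset.sum_const, nsmul_eq_mul, mul_one]
    intro p hp
    unfold CS at hp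
    rw [Finset.mem_filter] at hp
    show (if (⟨p.1, p.2⟩ : GaussianInt) = 0 then 0 else 1 : ℂ) = 1
    rw [if_neg]
    intro h
    have e1 := congrArg Zsqrtd.re h
    have e2 := congrArg Zsqrtd.im h
    simp only [Zsqrtd.re_zero, Zsqrtd.im_zero] at e1 e2
    have := hp.2
    rw [e1, e2] at this
    have hn' : (1 : ℤ) ≤ n := by exact_mod_cast hn
    simp at this
    omega
  rw [h2, norm_mul, Complex.norm_natCast] at h1
  have h3 : ‖(1 / 4 : ℂ)‖ = 1 / 4 := by
    rw [norm_div, norm_one]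
    simp
  rw [h3] at h1
  have h4 : ((CS n).card : ℝ) ≤ 4 * n.divisors.card := by linarith
  exact_mod_cast h4

/-- the norm as a natural number -/
theorem natAbs_norm (z : ZI) : ((Zsqrtd.norm z).natAbs : ℤ) = z.re ^ 2 + z.im ^ 2 := by
  rw [Int.natCast_natAbs, abs_of_nonneg (GaussianInt.norm_nonneg z), Zsqrtd.norm_def]
  ring

theorem nz_natAbs (z : ZI) : nz z = ((Zsqrtd.norm z).natAbs : ℝ) := by
  have h := natAbs_norm z
  have h2 : (((Zsqrtd.norm z).natAbs : ℤ) : ℝ) = ((z.re ^ 2 + z.im ^ 2 : ℤ) : ℝ) := by rw [h]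
  rw [Int.cast_natCast] at h2
  rw [nz_eq, h2]
  push_cast
  ring

theorem norm_pos' {z : ZI} (hz : z ≠ 0) : 1 ≤ (Zsqrtd.norm z).natAbs := by
  have := GaussianInt.norm_pos.2 hz
  omega

theorem card_dv (q : ZI) (hq : q ≠ 0) : dv q ≤ 4 * ((Zsqrtd.norm q).natAbs).divisors.card ^ 2 := by
  classical
  set n := (Zsqrtd.norm q).natAbs with hn
  have hN : 1 ≤ n := norm_pos' hq
  have hsub : (bl (nz q)).filter (fun d => d ∣ q) ⊆ n.divisors.biUnion
      (fun m => (CS m).image (fun p => (⟨p.1, p.2⟩ : ZI))) := by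
    intro d hd
    rw [Finset.mem_filter] at hd
    rw [Finset.mem_biUnion]
    have hdn : (Zsqrtd.norm d).natAbs ∣ n := by
      obtain ⟨e, rfl⟩ := hd.2
      rw [hn, Zsqrtd.norm_mul, Int.natAbs_mul]
      exact Dvd.intro _ rfl
    refine ⟨(Zsqrtd.norm d).natAbs, Nat.mem_divisors.2 ⟨hdn, by omega⟩, ?_⟩
    rw [Finset.mem_image]
    refine ⟨(d.re, d.im), ?_, rfl⟩
    unfold CS
    rw [Finset.mem_filter, Finset.mem_product, Finset.mem_Icc, Finset.mem_Icc]
    have h0 := natAbs_norm d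
    have hN : (0 : ℤ) ≤ (Zsqrtd.norm d).natAbs := Int.natCast_nonneg _
    refine ⟨⟨⟨?_, ?_⟩, ⟨?_, ?_⟩⟩, h0.symm⟩ <;> nlinarith [sq_nonneg d.re, sq_nonneg d.im]
  unfold dv
  refine (Finset.card_le_card hsub).trans (Finset.card_biUnion_le.trans ?_)
  calc ∑ m ∈ n.divisors, ((CS m).image (fun p => (⟨p.1, p.2⟩ : ZI))).card
      ≤ ∑ _n ∈ n.divisors, 4 * n.divisors.card := by
        refine Finset.sum_le_sum fun m hm => ?_
        have hm' := Nat.mem_divisors.1 hm
        have hm1 : 1 ≤ m := Nat.pos_of_ne_zero (fun h => by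
          rw [h] at hm'
          exact hm'.2 (zero_dvd_iff.1 hm'.1))
        refine Finset.card_image_le.trans ((CS_card m hm1).trans ?_)
        exact Nat.mul_le_mul_left _ (Finset.card_le_card
          (Nat.divisors_subset_of_dvd hm'.2 hm'.1))
    _ = _ := by
        rw [Finset.sum_const, smul_eq_mul]
        ring

/-- (DVB) the divisor bound -/
theorem dvb : S_DVB := by
  intro δ hδ
  obtain ⟨C, hC, h⟩ := Pool.Agent.H510R2.divisor_bound (δ / 2) (by linarith)
  refine ⟨4 * C ^ 2, by positivity, fun z hz => ?_⟩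
  have h1 := card_dv z hz
  set n := (Zsqrtd.norm z).natAbs with hn
  have hN : 1 ≤ n := norm_pos' hz
  have h2 := h n hN
  rw [nz_natAbs, ← hn]
  have hn0 : (0 : ℝ) ≤ n := Nat.cast_nonneg _
  have h3 : ((n.divisors.card : ℝ)) ^ 2 ≤ (C * (n : ℝ) ^ (δ / 2)) ^ 2 :=
    pow_le_pow_left₀ (Nat.cast_nonneg _) h2 2
  have h4 : (C * (n : ℝ) ^ (δ / 2)) ^ 2 = C ^ 2 * (n : ℝ) ^ δ := by
    rw [mul_pow, ← Real.rpow_natCast ((n : ℝ) ^ (δ / 2)) 2, ← Real.rpow_mul hn0]
    congr 2
    push_cast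
    ring
  have h5 : (dv z : ℝ) ≤ 4 * (n.divisors.card : ℝ) ^ 2 := by exact_mod_cast h1
  rw [h4] at h3
  linarith

end Pool.Agent.N407.GN
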