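import Pool.Agent.N782.GN.StmB

/-!
# Project GN (helper782), LIP: the properties of the kernel (helper407)
-/

set_option autoImplicit false

namespace Pool.Agent.N407.GN

open Finset
open Pool.Agent.N782.GN

theorem clamp_lip (u v : ℝ) : |max 0 (min 1 u) - max 0 (min 1 v)| ≤ |u - v| := by
  rcases le_total u v with h | h
  · rw [abs_of_nonpos (sub_nonpos.2 (max_le_max le_rfl (min_le_min le_rfl h))), abs_of_nonpos (by linarith)]
    rcases le_total 1 u with h1 | h1 <;> rcases le_total 1 v with h2 | h2 <;>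
    rcases le_total 0 u with h3 | h3 <;> rcases le_total 0 v with h4 | h4 <;>
    simp only [h1, h2, h3, h4, min_eq_left, min_eq_right, max_eq_left, max_eq_right, zero_le_one] <;> linarith
  · rw [abs_of_nonneg (sub_nonneg.2 (max_le_max le_rfl (min_le_min le_rfl h))), abs_of_nonneg (by linarith)]
    rcases le_total 1 u with h1 | h1 <;> rcases le_total 1 v with h2 | h2 <;>
    rcases le_total 0 u with h3 | h3 <;> rcases le_total 0 v with h4 | h4 <;>
    simp only [h1, h2, h3, h4, min_eq_left, min_eq_right, max_eq_left, max_eq_right, zero_le_one] <;> linarith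

theorem clamp_nonneg (u : ℝ) : 0 ≤ max 0 (min 1 u) := le_max_left _ _

theorem clamp_le (u : ℝ) : max 0 (min 1 u) ≤ 1 := max_le zero_le_one (min_le_left _ _)

theorem Phi_lip (u v : ℝ) : |Phi u - Phi v| ≤ 2 * |u - v| := by
  unfold Phi
  refine (clamp_lip _ _).trans ?_
  have h1 : |min (2 * u - 1) (3 - u) - min (2 * v - 1) (3 - v)| ≤
      max |2 * u - 1 - (2 * v - 1)| |3 - u - (3 - v)| := abs_min_sub_min_le_max _ _ _ _
  refine h1.trans (max_le ?_ ?_)
  · rw [show 2 * u - 1 - (2 * v - 1) = 2 * (u - v) by ring, abs_mul, abs_of_pos (by norm_num : (0 : ℝ) < 2)]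
  · rw [show 3 - u - (3 - v) = -(u - v) by ring, abs_neg]
    linarith [abs_nonneg (u - v)]

theorem Phi_nonneg (u : ℝ) : 0 ≤ Phi u := clamp_nonneg _
theorem Phi_le (u : ℝ) : Phi u ≤ 1 := clamp_le _

theorem Phi_zero {u : ℝ} (h : u ≤ 1 / 2) : Phi u = 0 := by
  unfold Phi
  apply max_eq_left
  exact (min_le_right _ _).trans ((min_le_left _ _).trans (by linarith))

theorem psi_lip {D : ℝ} (hD : 0 ≤ D) (u v : ℝ) : |psi D u - psi D v| ≤ D * |u - v| := by
  unfold psi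
  refine (clamp_lip _ _).trans ?_
  rw [show D * (1 - u) - D * (1 - v) = -(D * (u - v)) by ring, abs_neg, abs_mul, abs_of_nonneg hD]

theorem psi_nonneg (D u : ℝ) : 0 ≤ psi D u := clamp_nonneg _
theorem psi_le (D u : ℝ) : psi D u ≤ 1 := clamp_le _

theorem om_lip (u v : ℝ) : |om u - om v| ≤ |u - v| := by
  unfold om
  refine (clamp_lip _ _).trans ?_
  rw [show u - 1 - (v - 1) = u - v by ring]

theorem om_nonneg (u : ℝ) : 0 ≤ om u := clamp_nonneg _
theorem om_le (u : ℝ) : om u ≤ 1 := clamp_le _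

theorem om_zero {u : ℝ} (h : u ≤ 1) : om u = 0 := by
  unfold om
  apply max_eq_left
  exact (min_le_right _ _).trans (by linarith)

theorem prod3 {u v w u' v' w' : ℝ} (hu : 0 ≤ u) (hu1 : u ≤ 1) (hv : 0 ≤ v) (hv1 : v ≤ 1)
    (hv' : 0 ≤ v') (hv1' : v' ≤ 1) (hw' : 0 ≤ w') (hw1' : w' ≤ 1) :
    |u' * v' * w' - u * v * w| ≤ |u' - u| + |v' - v| + |w' - w| := by
  have h1 : u' * v' * w' - u * v * w = (u' - u) * (v' * w') + (v' - v) * (u * w') + (w' - w) * (u * v) := by ring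
  rw [h1]
  have e1 : |(u' - u) * (v' * w')| ≤ |u' - u| := by
    rw [abs_mul, abs_of_nonneg (mul_nonneg hv' hw')]
    exact mul_le_of_le_one_right (abs_nonneg _) (mul_le_one₀ hv1' hw' hw1')
  have e2 : |(v' - v) * (u * w')| ≤ |v' - v| := by
    rw [abs_mul, abs_of_nonneg (mul_nonneg hu hw')]
    exact mul_le_of_le_one_right (abs_nonneg _) (mul_le_one₀ hu1 hw' hw1')
  have e3 : |(w' - w) * (u * v)| ≤ |w' - w| := by
    rw [abs_mul, abs_of_nonneg (mul_nonneg hu hv)]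
    exact mul_le_of_le_one_right (abs_nonneg _) (mul_le_one₀ hu1 hv hv1)
  have h2 := abs_add_le ((u' - u) * (v' * w') + (v' - v) * (u * w')) ((w' - w) * (u * v))
  have h3 := abs_add_le ((u' - u) * (v' * w')) ((v' - v) * (u * w'))
  linarith

/-- the kernel as a function of real numbers -/
noncomputable def kr (D M P D1 a b n1 n2 : ℝ) : ℝ :=
  om (a / D1) * (Phi (b / a / P) * psi D (n1 * (b / a) / M) * psi D (n2 * (b / a) / M)) / a

theorem hr_nonneg (D M P a b n1 n2 : ℝ) :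
    0 ≤ Phi (b / a / P) * psi D (n1 * (b / a) / M) * psi D (n2 * (b / a) / M) :=
  mul_nonneg (mul_nonneg (Phi_nonneg _) (psi_nonneg _ _)) (psi_nonneg _ _)

theorem hr_le (D M P a b n1 n2 : ℝ) :
    Phi (b / a / P) * psi D (n1 * (b / a) / M) * psi D (n2 * (b / a) / M) ≤ 1 :=
  mul_le_one₀ (mul_le_one₀ (Phi_le _) (psi_nonneg _ _) (psi_le _ _)) (psi_nonneg _ _) (psi_le _ _)

theorem kr_small {D M P D1 a b n1 n2 : ℝ} (hD1 : 0 < D1) (ha : a ≤ D1) : kr D M P D1 a b n1 n2 = 0 := by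
  unfold kr
  rw [om_zero ((div_le_one hD1).2 ha), zero_mul, zero_div]

theorem kr_large {D M P D1 a b n1 n2 : ℝ} (hP : 0 < P) (ha : 0 < a) (h : 2 * b ≤ P * a) :
    kr D M P D1 a b n1 n2 = 0 := by
  unfold kr
  rw [Phi_zero, zero_mul, zero_mul, mul_zero, zero_div]
  rw [div_div, div_le_div_iff₀ (by positivity) (by norm_num)]
  linarith

theorem kr_abs {D M P D1 a b n1 n2 : ℝ} (ha : 0 < a) : |kr D M P D1 a b n1 n2| ≤ om (a / D1) / a := by
  unfold kr
  rw [abs_of_nonneg (div_nonneg (mul_nonneg (om_nonneg _) (hr_nonneg D M P a b n1 n2)) ha.le)]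
  exact div_le_div_of_nonneg_right (mul_le_of_le_one_right (om_nonneg _) (hr_le D M P a b n1 n2)) ha.le

theorem kr_edge {D M P D1 a b n1 n2 e : ℝ} (hD1 : 0 < D1) (ha : D1 < a) (he : a - D1 ≤ e) :
    |kr D M P D1 a b n1 n2| ≤ e / D1 ^ 2 := by
  have ha0 : 0 < a := hD1.trans ha
  refine (kr_abs ha0).trans ?_
  have h1 : om (a / D1) ≤ e / D1 := by
    have h2 := om_lip (a / D1) 1
    rw [om_zero (le_refl 1), sub_zero, abs_of_nonneg (om_nonneg _)] at h2
    refine h2.trans ?_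
    have h3 : a / D1 - 1 = (a - D1) / D1 := by field_simp
    rw [h3, abs_of_nonneg (div_nonneg (by linarith) hD1.le)]
    exact div_le_div_of_nonneg_right he hD1.le
  calc om (a / D1) / a ≤ om (a / D1) / D1 := div_le_div_of_nonneg_left (om_nonneg _) hD1 ha.le
    _ ≤ e / D1 / D1 := div_le_div_of_nonneg_right h1 hD1.le
    _ = e / D1 ^ 2 := by rw [div_div, sq]

theorem kr_both {D M P D1 a b n1 n2 a' b' n1' n2' R T η : ℝ} (hD : 1 ≤ D) (hP : 0 < P) (hR : 0 < R) (hRM : R * P ≤ M)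
    (hD1 : 0 < D1) (ha : D1 < a) (ha' : D1 < a') (hT : D1 ≤ T) (hη : 0 < η)
    (hb : 0 ≤ b) (hb4 : b ≤ 4 * (T * P)) (hda : |a' - a| ≤ 130 * η * T) (hdb : |b' - b| ≤ 8 * η * (T * P))
    (hn1 : n1' ≤ 2 * R) (hn10 : 0 ≤ n1') (hn2 : n2' ≤ 2 * R) (hn20 : 0 ≤ n2')
    (hd1 : |n1' - n1| ≤ 2 * R * η) (hd2 : |n2' - n2| ≤ 2 * R * η) :
    |kr D M P D1 a' b' n1' n2' - kr D M P D1 a b n1 n2| ≤ 4000 * D * η * T ^ 3 / D1 ^ 4 := by
  have ha0 : 0 < a := hD1.trans ha
  have ha0' : 0 < a' := hD1.trans ha'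
  have hM : 0 < M := (mul_pos hR hP).trans_le hRM
  have hT0 : 0 < T := hD1.trans_le hT
  have hD0 : 0 < D := by linarith
  -- `t = T / D1`
  obtain ⟨t, ht⟩ : ∃ t, t = T / D1 := ⟨_, rfl⟩
  have ht1 : 1 ≤ t := by rw [ht, one_le_div hD1]; exact hT
  have ht0 : 0 < t := by linarith
  have hTt : T = t * D1 := by rw [ht]; field_simp
  have htt : t ≤ t ^ 2 := by nlinarith
  have httt : t ^ 2 ≤ t ^ 3 := by
    have : 0 ≤ t ^ 2 * (t - 1) := mul_nonneg (sq_nonneg _) (by linarith)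
    nlinarith
  -- the quotients
  have hr0 : 0 ≤ b / a := div_nonneg hb ha0.le
  have hr : b / a ≤ 4 * P * t := by
    rw [div_le_iff₀ ha0]
    have h1 : 4 * (T * P) = 4 * P * t * D1 := by rw [hTt]; ring
    rw [h1] at hb4
    exact hb4.trans (mul_le_mul_of_nonneg_left ha.le (by positivity))
  have hinv : |1 / a' - 1 / a| ≤ 130 * η * t / D1 := by
    have h1 : 1 / a' - 1 / a = (a - a') / (a' * a) := by field_simp
    rw [h1, abs_div, abs_of_pos (mul_pos ha0' ha0), abs_sub_comm]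
    rw [div_le_div_iff₀ (mul_pos ha0' ha0) hD1]
    have h2 : |a' - a| * D1 ≤ 130 * η * T * D1 := mul_le_mul_of_nonneg_right hda hD1.le
    have h3 : 130 * η * T * D1 = 130 * η * t * (D1 * D1) := by rw [hTt]; ring
    rw [h3] at h2
    refine h2.trans (mul_le_mul_of_nonneg_left ?_ (by positivity))
    exact mul_le_mul ha'.le ha.le hD1.le ha0'.le
  have hrd : |b' / a' - b / a| ≤ 528 * η * P * t ^ 2 := by
    have h1 : b' / a' - b / a = (b' - b) / a' + b * (1 / a' - 1 / a) := by field_simp; ring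
    rw [h1]
    have h2 : |(b' - b) / a'| ≤ 8 * η * P * t := by
      rw [abs_div, abs_of_pos ha0', div_le_iff₀ ha0']
      refine hdb.trans ?_
      have : 8 * η * (T * P) = 8 * η * P * t * D1 := by rw [hTt]; ring
      rw [this]
      exact mul_le_mul_of_nonneg_left ha'.le (by positivity)
    have h3 : |b * (1 / a' - 1 / a)| ≤ 520 * η * P * t ^ 2 := by
      rw [abs_mul, abs_of_nonneg hb]
      have h4 : b * |1 / a' - 1 / a| ≤ (4 * (T * P)) * (130 * η * t / D1) :=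
        mul_le_mul hb4 hinv (abs_nonneg _) (by positivity)
      refine h4.trans (le_of_eq ?_)
      rw [hTt]
      field_simp
      ring
    have h4 := abs_add_le ((b' - b) / a') (b * (1 / a' - 1 / a))
    have h5 : 8 * η * P * t ≤ 8 * η * P * t ^ 2 := mul_le_mul_of_nonneg_left htt (by positivity)
    have h6 : 528 * η * P * t ^ 2 = 8 * η * P * t ^ 2 + 520 * η * P * t ^ 2 := by ring
    linarith
  have hPhi : |Phi (b' / a' / P) - Phi (b / a / P)| ≤ 1056 * η * t ^ 2 := by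
    refine (Phi_lip _ _).trans ?_
    rw [← sub_div, abs_div, abs_of_pos hP, ← mul_div_assoc, div_le_iff₀ hP]
    linarith
  have hpsi : ∀ n n' : ℝ, n' ≤ 2 * R → 0 ≤ n' → |n' - n| ≤ 2 * R * η →
      |psi D (n' * (b' / a') / M) - psi D (n * (b / a) / M)| ≤ 1064 * D * η * t ^ 2 := by
    intro n n' h1 h2 h3
    refine (psi_lip hD0.le _ _).trans ?_
    rw [← sub_div, abs_div, abs_of_pos hM, ← mul_div_assoc, div_le_iff₀ hM]
    have h4 : n' * (b' / a') - n * (b / a) = n' * (b' / a' - b / a) + (n' - n) * (b / a) := by ring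
    rw [h4]
    have h5 : |n' * (b' / a' - b / a)| ≤ (2 * R) * (528 * η * P * t ^ 2) := by
      rw [abs_mul, abs_of_nonneg h2]
      exact mul_le_mul h1 hrd (abs_nonneg _) (by positivity)
    have h6 : |(n' - n) * (b / a)| ≤ (2 * R * η) * (4 * P * t) := by
      rw [abs_mul, abs_of_nonneg hr0]
      exact mul_le_mul h3 hr hr0 (by positivity)
    have h7 := abs_add_le (n' * (b' / a' - b / a)) ((n' - n) * (b / a))
    have h8 : (2 * R * η) * (4 * P * t) ≤ 8 * (η * (R * P)) * t ^ 2 := by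
      have : (2 * R * η) * (4 * P * t) = 8 * (η * (R * P)) * t := by ring
      rw [this]
      exact mul_le_mul_of_nonneg_left htt (by positivity)
    have h9 : |n' * (b' / a' - b / a) + (n' - n) * (b / a)| ≤ 1064 * (η * t ^ 2) * (R * P) := by
      have : (2 * R) * (528 * η * P * t ^ 2) = 1056 * (η * t ^ 2) * (R * P) := by ring
      linarith
    have h10 : 1064 * (η * t ^ 2) * (R * P) ≤ 1064 * (η * t ^ 2) * M :=
      mul_le_mul_of_nonneg_left hRM (by positivity)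
    calc D * |n' * (b' / a' - b / a) + (n' - n) * (b / a)| ≤ D * (1064 * (η * t ^ 2) * M) :=
          mul_le_mul_of_nonneg_left (h9.trans h10) hD0.le
      _ = 1064 * D * η * t ^ 2 * M := by ring
  obtain ⟨H, hH⟩ : ∃ H, H = Phi (b / a / P) * psi D (n1 * (b / a) / M) * psi D (n2 * (b / a) / M) := ⟨_, rfl⟩
  obtain ⟨H', hH'⟩ : ∃ H', H' = Phi (b' / a' / P) * psi D (n1' * (b' / a') / M) * psi D (n2' * (b' / a') / M) :=
    ⟨_, rfl⟩
  have hH0 : 0 ≤ H := by rw [hH]; exact hr_nonneg _ _ _ _ _ _ _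
  have hH1 : H ≤ 1 := by rw [hH]; exact hr_le _ _ _ _ _ _ _
  have hH0' : 0 ≤ H' := by rw [hH']; exact hr_nonneg _ _ _ _ _ _ _
  have hH1' : H' ≤ 1 := by rw [hH']; exact hr_le _ _ _ _ _ _ _
  have hHd : |H' - H| ≤ 3184 * D * η * t ^ 2 := by
    rw [hH, hH']
    refine (prod3 (Phi_nonneg _) (Phi_le _) (psi_nonneg _ _) (psi_le _ _) (psi_nonneg _ _) (psi_le _ _)
      (psi_nonneg _ _) (psi_le _ _)).trans ?_
    have h1 := hpsi n1 n1' hn1 hn10 hd1
    have h2 := hpsi n2 n2' hn2 hn20 hd2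
    have h3 : 1056 * η * t ^ 2 ≤ 1056 * D * η * t ^ 2 := by
      have : 1056 * D * η * t ^ 2 = D * (1056 * η * t ^ 2) := by ring
      rw [this]
      exact le_mul_of_one_le_left (by positivity) hD
    linarith
  have hom : |om (a' / D1) - om (a / D1)| ≤ 130 * η * t := by
    refine (om_lip _ _).trans ?_
    rw [← sub_div, abs_div, abs_of_pos hD1, div_le_iff₀ hD1]
    refine hda.trans (le_of_eq ?_)
    rw [hTt]
    ring
  unfold kr
  rw [← hH, ← hH']
  have hid : om (a' / D1) * H' / a' - om (a / D1) * H / a =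
      (om (a' / D1) - om (a / D1)) * (H' / a') + (H' - H) * (om (a / D1) / a') +
        (1 / a' - 1 / a) * (om (a / D1) * H) := by
    field_simp
    ring
  rw [hid]
  have hia : 1 / a' ≤ 1 / D1 := one_div_le_one_div_of_le hD1 ha'.le
  have f1 : |(om (a' / D1) - om (a / D1)) * (H' / a')| ≤ (130 * η * t) * (1 / D1) := by
    rw [abs_mul, abs_of_nonneg (div_nonneg hH0' ha0'.le)]
    refine mul_le_mul hom ?_ (div_nonneg hH0' ha0'.le) (by positivity)
    exact (div_le_div_of_nonneg_right hH1' ha0'.le).trans hia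
  have f2 : |(H' - H) * (om (a / D1) / a')| ≤ (3184 * D * η * t ^ 2) * (1 / D1) := by
    rw [abs_mul, abs_of_nonneg (div_nonneg (om_nonneg _) ha0'.le)]
    refine mul_le_mul hHd ?_ (div_nonneg (om_nonneg _) ha0'.le) (by positivity)
    exact (div_le_div_of_nonneg_right (om_le _) ha0'.le).trans hia
  have f3 : |(1 / a' - 1 / a) * (om (a / D1) * H)| ≤ 130 * η * t / D1 := by
    rw [abs_mul, abs_of_nonneg (mul_nonneg (om_nonneg _) hH0)]
    refine (mul_le_of_le_one_right (abs_nonneg _) (mul_le_one₀ (om_le _) hH0 hH1)).trans hinv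
  have g1 := abs_add_le ((om (a' / D1) - om (a / D1)) * (H' / a') + (H' - H) * (om (a / D1) / a'))
    ((1 / a' - 1 / a) * (om (a / D1) * H))
  have g2 := abs_add_le ((om (a' / D1) - om (a / D1)) * (H' / a')) ((H' - H) * (om (a / D1) / a'))
  have g3 : 4000 * D * η * T ^ 3 / D1 ^ 4 = (4000 * D * η * t ^ 3) * (1 / D1) := by
    rw [hTt]
    field_simp
  rw [g3]
  have g4 : 130 * η * t / D1 = (130 * η * t) * (1 / D1) := by rw [mul_one_div]
  rw [g4] at f3
  have g5 : (130 * η * t) + 3184 * D * η * t ^ 2 + (130 * η * t) ≤ 4000 * D * η * t ^ 3 := by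
    have k0 : t ≤ t ^ 3 := htt.trans httt
    have k1 : η * t ≤ D * (η * t ^ 3) :=
      (mul_le_mul_of_nonneg_left k0 hη.le).trans (le_mul_of_one_le_left (by positivity) hD)
    have k2 : D * η * t ^ 2 ≤ D * η * t ^ 3 := mul_le_mul_of_nonneg_left httt (by positivity)
    have k3 : 0 ≤ D * η * t ^ 3 := by positivity
    nlinarith
  have g6 := mul_le_mul_of_nonneg_right g5 (show (0 : ℝ) ≤ 1 / D1 by positivity)
  linarith

theorem kr_var {D M P D1 a b n1 n2 a' b' n1' n2' R T η : ℝ} (hD : 1 ≤ D) (hP : 0 < P) (hR : 0 < R) (hRM : R * P ≤ M)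
    (hD1 : 0 < D1) (hT : D1 ≤ T) (hη : 0 < η) (hη1 : η ≤ 1 / 100) (hb : 0 ≤ b) (hb4 : b ≤ 4 * (T * P)) (hb4' : b' ≤ 4 * (T * P))
    (hda : |a' - a| ≤ 12 * η * (a + T)) (hdb : |b' - b| ≤ 8 * η * (T * P))
    (hn1 : n1' ≤ 2 * R) (hn10 : 0 ≤ n1') (hn2 : n2' ≤ 2 * R) (hn20 : 0 ≤ n2')
    (hd1 : |n1' - n1| ≤ 2 * R * η) (hd2 : |n2' - n2| ≤ 2 * R * η) :
    |kr D M P D1 a' b' n1' n2' - kr D M P D1 a b n1 n2| ≤ 4000 * D * η * T ^ 3 / D1 ^ 4 := by
  have hT0 : 0 < T := hD1.trans_le hT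
  have hD0 : 0 < D := by linarith
  have hRHS : 0 ≤ 4000 * D * η * T ^ 3 / D1 ^ 4 := by positivity
  have hedge : 130 * η * T / D1 ^ 2 ≤ 4000 * D * η * T ^ 3 / D1 ^ 4 := by
    rw [div_le_div_iff₀ (by positivity) (by positivity)]
    have h1 : D1 ^ 2 ≤ T ^ 2 := pow_le_pow_left₀ hD1.le hT 2
    have h2 : 130 * η * T * D1 ^ 4 = (130 * η * T * D1 ^ 2) * D1 ^ 2 := by ring
    have h3 : 4000 * D * η * T ^ 3 * D1 ^ 2 = (D * (4000 * η * T * D1 ^ 2)) * T ^ 2 := by ring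
    rw [h2, h3]
    refine mul_le_mul ?_ h1 (by positivity) (by positivity)
    have h4 : 130 * η * T * D1 ^ 2 ≤ 4000 * η * T * D1 ^ 2 := by
      have : 0 ≤ η * T * D1 ^ 2 := by positivity
      nlinarith
    exact h4.trans (le_mul_of_one_le_left (by positivity) hD)
  by_cases hA : 8 * T < a ∧ 8 * T < a'
  · have ha0 : 0 < a := by linarith [hA.1]
    have ha0' : 0 < a' := by linarith [hA.2]
    rw [kr_large hP ha0 (by nlinarith [hA.1]), kr_large hP ha0' (by nlinarith [hA.2]), sub_zero, abs_zero]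
    exact hRHS
  have hda' : |a' - a| ≤ 130 * η * T := by
    rcases not_and_or.1 hA with h | h
    · rw [not_lt] at h
      refine hda.trans ?_
      nlinarith
    · rw [not_lt] at h
      have h1 : a - a' ≤ |a' - a| := by
        rw [abs_sub_comm]
        exact le_abs_self _
      have h2 : a ≤ 28 / 3 * T := by
        by_contra hcon
        rw [not_le] at hcon
        have h3 : 12 * η * (a + T) ≤ 12 / 100 * (a + T) := by
          have : 0 ≤ a + T := by linarith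
          nlinarith
        linarith
      refine hda.trans ?_
      nlinarith
  rcases le_or_gt a D1 with h1 | h1 <;> rcases le_or_gt a' D1 with h2 | h2
  · rw [kr_small hD1 h1, kr_small hD1 h2, sub_zero, abs_zero]
    exact hRHS
  · rw [kr_small hD1 h1, sub_zero]
    refine (kr_edge hD1 h2 (e := 130 * η * T) ?_).trans hedge
    linarith [le_abs_self (a' - a)]
  · rw [kr_small hD1 h2, zero_sub, abs_neg]
    refine (kr_edge hD1 h1 (e := 130 * η * T) ?_).trans hedge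
    have := neg_abs_le (a' - a)
    linarith
  · exact kr_both hD hP hR hRM hD1 h1 h2 hT hη hb hb4 hda' hdb hn1 hn10 hn2 hn20 hd1 hd2

theorem exp_sub_one (θ : ℝ) : ‖Complex.exp (θ * Complex.I) - 1‖ ≤ |θ| := by
  have := Real.norm_exp_I_mul_ofReal_sub_one_le (x := θ)
  rw [mul_comm]
  simpa using this

theorem move (z : ℂ) (ρ θ R η δ : ℝ) (hz : ‖z‖ ≤ 2 * R) (hρ : |ρ - 1| ≤ η) (hθ : |θ| ≤ δ) (hδ : δ ≤ η) :
    ‖z * ρ * Complex.exp (θ * Complex.I) - z‖ ≤ 4 * R * η := by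
  have h1 : z * ρ * Complex.exp (θ * Complex.I) - z =
      z * (((ρ - 1 : ℝ) : ℂ) * Complex.exp (θ * Complex.I) + (Complex.exp (θ * Complex.I) - 1)) := by
    push_cast
    ring
  rw [h1, norm_mul]
  have h2 : ‖((ρ - 1 : ℝ) : ℂ) * Complex.exp (θ * Complex.I) + (Complex.exp (θ * Complex.I) - 1)‖ ≤ 2 * η := by
    refine (norm_add_le _ _).trans ?_
    rw [norm_mul, Complex.norm_exp_ofReal_mul_I, mul_one, Complex.norm_real, Real.norm_eq_abs]
    have := exp_sub_one θ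
    linarith
  have h0 : 0 ≤ η := (abs_nonneg _).trans hρ
  calc ‖z‖ * _ ≤ (2 * R) * (2 * η) := mul_le_mul hz h2 (norm_nonneg _) (by linarith [norm_nonneg z])
    _ = 4 * R * η := by ring

theorem dlc_move (z1 z2 : ℂ) (ρ1 ρ2 θ1 θ2 R T η δ : ℝ) (h1 : ‖z1‖ ≤ 2 * R) (h2 : ‖z2‖ ≤ 2 * R)
    (hρ1 : |ρ1 - 1| ≤ η) (hρ2 : |ρ2 - 1| ≤ η) (hθ1 : |θ1| ≤ δ) (hθ2 : |θ2| ≤ δ) (hδ : δ ≤ η) (hη : η ≤ 1 / 100)
    (hT : R ^ 2 * δ ≤ η * T) :
    |(|dlc (z1 * ρ1 * Complex.exp (θ1 * Complex.I)) (z2 * ρ2 * Complex.exp (θ2 * Complex.I))|) - (|dlc z1 z2|)| ≤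
      12 * η * (|dlc z1 z2| + T) := by
  refine (abs_abs_sub_abs_le_abs_sub _ _).trans ?_
  have h0 : 0 ≤ η := (abs_nonneg _).trans hρ1
  have hδ0 : 0 ≤ δ := (abs_nonneg _).trans hθ1
  obtain ⟨w, hw⟩ : ∃ w : ℂ, w = (starRingEnd ℂ) z1 * z2 := ⟨_, rfl⟩
  have e1 : dlc (z1 * ρ1 * Complex.exp (θ1 * Complex.I)) (z2 * ρ2 * Complex.exp (θ2 * Complex.I)) =
      w.im * (ρ1 * ρ2 * Real.cos (θ2 - θ1)) + w.re * (ρ1 * ρ2 * Real.sin (θ2 - θ1)) := by
    unfold dlc
    have e2 : (starRingEnd ℂ) (z1 * ρ1 * Complex.exp (θ1 * Complex.I)) * (z2 * ρ2 * Complex.exp (θ2 * Complex.I)) =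
        w * (((ρ1 * ρ2 : ℝ) : ℂ) * Complex.exp (((θ2 - θ1 : ℝ) : ℂ) * Complex.I)) := by
      rw [map_mul, map_mul, Complex.conj_ofReal, ← Complex.exp_conj, map_mul, Complex.conj_ofReal, Complex.conj_I, hw]
      have e3 : Complex.exp (((θ2 - θ1 : ℝ) : ℂ) * Complex.I) =
          Complex.exp ((θ1 : ℂ) * -Complex.I) * Complex.exp ((θ2 : ℂ) * Complex.I) := by
        rw [← Complex.exp_add]
        congr 1
        push_cast
        ring
      rw [e3]
      push_cast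
      ring
    rw [e2, Complex.mul_im, Complex.re_ofReal_mul, Complex.im_ofReal_mul, Complex.exp_ofReal_mul_I_re,
      Complex.exp_ofReal_mul_I_im]
    ring
  have e4 : dlc z1 z2 = w.im := by unfold dlc; rw [hw]
  have hwn : |w.re| ≤ 4 * R ^ 2 := by
    refine (Complex.abs_re_le_norm w).trans ?_
    rw [hw, norm_mul, RCLike.norm_conj]
    have : ‖z1‖ * ‖z2‖ ≤ (2 * R) * (2 * R) := mul_le_mul h1 h2 (norm_nonneg _) (by linarith [norm_nonneg z1])
    nlinarith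
  rw [e1, e4]
  have hc : |ρ1 * ρ2 - 1| ≤ 3 * η := by
    have : ρ1 * ρ2 - 1 = (ρ1 - 1) * (ρ2 - 1) + (ρ1 - 1) + (ρ2 - 1) := by ring
    rw [this]
    have k1 := abs_add_le ((ρ1 - 1) * (ρ2 - 1) + (ρ1 - 1)) (ρ2 - 1)
    have k2 := abs_add_le ((ρ1 - 1) * (ρ2 - 1)) (ρ1 - 1)
    have k3 : |(ρ1 - 1) * (ρ2 - 1)| ≤ η * 1 := by
      rw [abs_mul]
      exact mul_le_mul hρ1 (hρ2.trans (by linarith)) (abs_nonneg _) h0
    linarith
  have hcp : |ρ1 * ρ2| ≤ 3 / 2 := by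
    have : |ρ1 * ρ2| ≤ |ρ1 * ρ2 - 1| + |(1 : ℝ)| := by
      have := abs_add_le (ρ1 * ρ2 - 1) 1
      simpa using this
    rw [abs_one] at this
    linarith
  have hθ : |θ2 - θ1| ≤ 2 * δ := by
    have := abs_sub θ2 θ1
    linarith
  have hcos : |Real.cos (θ2 - θ1) - 1| ≤ 2 * δ := by
    have k1 := Real.one_sub_sq_div_two_le_cos (x := θ2 - θ1)
    have k2 := Real.cos_le_one (θ2 - θ1)
    rw [abs_sub_comm, abs_of_nonneg (by linarith)]
    have k3 : (θ2 - θ1) ^ 2 ≤ (2 * δ) ^ 2 := by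
      rw [← sq_abs]
      exact pow_le_pow_left₀ (abs_nonneg _) hθ 2
    nlinarith
  have hsin : |Real.sin (θ2 - θ1)| ≤ 2 * δ := Real.abs_sin_le_abs.trans hθ
  have hre : |ρ1 * ρ2 * Real.cos (θ2 - θ1) - 1| ≤ 6 * η := by
    have : ρ1 * ρ2 * Real.cos (θ2 - θ1) - 1 = ρ1 * ρ2 * (Real.cos (θ2 - θ1) - 1) + (ρ1 * ρ2 - 1) := by ring
    rw [this]
    have k1 := abs_add_le (ρ1 * ρ2 * (Real.cos (θ2 - θ1) - 1)) (ρ1 * ρ2 - 1)
    have k2 : |ρ1 * ρ2 * (Real.cos (θ2 - θ1) - 1)| ≤ (3 / 2) * (2 * δ) := by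
      rw [abs_mul]
      exact mul_le_mul hcp hcos (abs_nonneg _) (by norm_num)
    linarith
  have him : |ρ1 * ρ2 * Real.sin (θ2 - θ1)| ≤ 3 * δ := by
    rw [abs_mul]
    calc |ρ1 * ρ2| * |Real.sin (θ2 - θ1)| ≤ (3 / 2) * (2 * δ) := mul_le_mul hcp hsin (abs_nonneg _) (by norm_num)
      _ = 3 * δ := by ring
  have hid : w.im * (ρ1 * ρ2 * Real.cos (θ2 - θ1)) + w.re * (ρ1 * ρ2 * Real.sin (θ2 - θ1)) - w.im =
      w.im * (ρ1 * ρ2 * Real.cos (θ2 - θ1) - 1) + w.re * (ρ1 * ρ2 * Real.sin (θ2 - θ1)) := by ring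
  rw [hid]
  have g1 := abs_add_le (w.im * (ρ1 * ρ2 * Real.cos (θ2 - θ1) - 1)) (w.re * (ρ1 * ρ2 * Real.sin (θ2 - θ1)))
  have g2 : |w.im * (ρ1 * ρ2 * Real.cos (θ2 - θ1) - 1)| ≤ |w.im| * (6 * η) := by
    rw [abs_mul]
    exact mul_le_mul_of_nonneg_left hre (abs_nonneg _)
  have g3 : |w.re * (ρ1 * ρ2 * Real.sin (θ2 - θ1))| ≤ (4 * R ^ 2) * (3 * δ) := by
    rw [abs_mul]
    exact mul_le_mul hwn him (abs_nonneg _) (by positivity)
  have g4 : 0 ≤ |w.im| * η := mul_nonneg (abs_nonneg _) h0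
  nlinarith

theorem Kf_eq (D M P D1 x y : ℝ) (z1 z2 : ℂ) :
    Kf D M P D1 x y z1 z2 = kr D M P D1 |dlc z1 z2| ‖z2 * x - z1 * y‖ ‖z1‖ ‖z2‖ := rfl

theorem norm_le4 {x y R L : ℝ} {z1 z2 : ℂ} (hx : 0 ≤ x) (hxL : x ≤ L) (hy : 0 ≤ y) (hyL : y ≤ L)
    (h1 : ‖z1‖ ≤ 2 * R) (h2 : ‖z2‖ ≤ 2 * R) : ‖z2 * x - z1 * y‖ ≤ 4 * (R * L) := by
  refine (norm_sub_le _ _).trans ?_
  rw [norm_mul, norm_mul, Complex.norm_real, Complex.norm_real, Real.norm_of_nonneg hx, Real.norm_of_nonneg hy]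
  have k1 : ‖z2‖ * x ≤ (2 * R) * L := mul_le_mul h2 hxL hx (by linarith [norm_nonneg z2])
  have k2 : ‖z1‖ * y ≤ (2 * R) * L := mul_le_mul h1 hyL hy (by linarith [norm_nonneg z1])
  linarith

/-- (LIP) the properties of the kernel -/
theorem lip : S_LIP := by
  refine ⟨4000, by norm_num, ?_⟩
  intro D M P D1 x y R L δ η hD hR hP hL hD1 hRM hD1T hx hxL hy hyL hη hη1 hδ hδη hRδ
  have hR0 : 0 < R := by linarith
  obtain ⟨T, hT⟩ : ∃ T, T = R * L / P := ⟨_, rfl⟩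
  have hTP : T * P = R * L := by rw [hT]; field_simp
  rw [← hT] at hD1T hRδ ⊢
  have hT0 : 0 < T := hD1.trans_le hD1T
  have habs : ∀ z1 z2 : ℂ, D1 < |dlc z1 z2| → |Kf D M P D1 x y z1 z2| ≤ 1 / |dlc z1 z2| := by
    intro z1 z2 h
    rw [Kf_eq]
    refine (kr_abs (hD1.trans h)).trans ?_
    exact div_le_div_of_nonneg_right (om_le _) (hD1.trans h).le
  refine ⟨⟨?_, ?_, ?_, ?_, ?_⟩, ?_⟩
  · intro z1 z2 _ _ _ _
    rcases le_or_gt |dlc z1 z2| D1 with h | h
    · rw [Kf_eq, kr_small hD1 h, abs_zero]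
      positivity
    · exact (habs z1 z2 h).trans (one_div_le_one_div_of_le hD1 h.le)
  · intro z1 z2 _ h2 _ h4 h
    rw [Kf_eq]
    have h5 : 8 * L / (P * R) * R ^ 2 = 8 * T := by
      rw [hT]
      field_simp
    rw [h5] at h
    apply kr_large hP (by linarith)
    have h6 := norm_le4 hx hxL hy hyL h2 h4
    rw [← hTP] at h6
    nlinarith
  · intro z1 z2 ρ1 ρ2 θ1 θ2 h1 h2 h3 h4 h5 h6 h7 h8 h9 h10 h11 h12
    rw [Kf_eq, Kf_eq]
    have hρ1 : 0 ≤ ρ1 := by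
      by_contra hcon
      rw [not_le] at hcon
      nlinarith [norm_nonneg z1]
    have hρ2 : 0 ≤ ρ2 := by
      by_contra hcon
      rw [not_le] at hcon
      nlinarith [norm_nonneg z2]
    have hn : ∀ (z : ℂ) (ρ θ : ℝ), 0 ≤ ρ → ‖z * ρ * Complex.exp (θ * Complex.I)‖ = ρ * ‖z‖ := by
      intro z ρ θ hρ
      rw [norm_mul, norm_mul, Complex.norm_exp_ofReal_mul_I, Complex.norm_real, Real.norm_of_nonneg hρ, mul_one,
        mul_comm]
    have hd : ∀ (z : ℂ) (ρ : ℝ), ‖z‖ ≤ 2 * R → |ρ - 1| ≤ η → |ρ * ‖z‖ - ‖z‖| ≤ 2 * R * η := by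
      intro z ρ k1 k2
      have : ρ * ‖z‖ - ‖z‖ = (ρ - 1) * ‖z‖ := by ring
      rw [this, abs_mul, abs_of_nonneg (norm_nonneg z)]
      calc |ρ - 1| * ‖z‖ ≤ η * (2 * R) := mul_le_mul k2 k1 (norm_nonneg _) hη.le
        _ = 2 * R * η := by ring
    have hm1 := move z1 ρ1 θ1 R η δ h2 h9 h11 hδη
    have hm2 := move z2 ρ2 θ2 R η δ h4 h10 h12 hδη
    refine kr_var (R := R) (T := T) hD hP hR0 hRM hD1 hD1T hη hη1 (norm_nonneg _) ?_ ?_ ?_ ?_ ?_ ?_ ?_ ?_ ?_ ?_
    · rw [hTP]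
      exact norm_le4 hx hxL hy hyL h2 h4
    · rw [hTP]
      refine norm_le4 hx hxL hy hyL ?_ ?_
      · rw [hn _ _ _ hρ1]; exact h6
      · rw [hn _ _ _ hρ2]; exact h8
    · exact dlc_move z1 z2 ρ1 ρ2 θ1 θ2 R T η δ h2 h4 h9 h10 h11 h12 hδη hη1 hRδ
    · refine (abs_norm_sub_norm_le _ _).trans ?_
      have e1 : z2 * ρ2 * Complex.exp (θ2 * Complex.I) * x - z1 * ρ1 * Complex.exp (θ1 * Complex.I) * y -
          (z2 * x - z1 * y) = (z2 * ρ2 * Complex.exp (θ2 * Complex.I) - z2) * x -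
          (z1 * ρ1 * Complex.exp (θ1 * Complex.I) - z1) * y := by ring
      rw [e1]
      refine (norm_sub_le _ _).trans ?_
      rw [norm_mul, norm_mul, Complex.norm_real, Complex.norm_real, Real.norm_of_nonneg hx, Real.norm_of_nonneg hy, hTP]
      have k1 : ‖z2 * ρ2 * Complex.exp (θ2 * Complex.I) - z2‖ * x ≤ (4 * R * η) * L :=
        mul_le_mul hm2 hxL hx (by positivity)
      have k2 : ‖z1 * ρ1 * Complex.exp (θ1 * Complex.I) - z1‖ * y ≤ (4 * R * η) * L :=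
        mul_le_mul hm1 hyL hy (by positivity)
      linarith
    · rw [hn _ _ _ hρ1]; exact h6
    · exact norm_nonneg _
    · rw [hn _ _ _ hρ2]; exact h8
    · exact norm_nonneg _
    · rw [hn _ _ _ hρ1]
      exact hd z1 ρ1 h2 h9
    · rw [hn _ _ _ hρ2]
      exact hd z2 ρ2 h4 h10
  · intro z1 z2 h
    rw [Kf_eq, h, abs_zero]
    unfold kr
    rw [div_zero]
  · intro r1 r2
    have hPhi : Measurable Phi := by
      apply Continuous.measurable
      unfold Phi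
      fun_prop
    have hpsi : Measurable (psi D) := by
      apply Continuous.measurable
      unfold psi
      fun_prop
    have hom : Measurable om := by
      apply Continuous.measurable
      unfold om
      fun_prop
    have h1 : Measurable (fun p : ℝ × ℝ => |dlc (r1 * Complex.exp (p.1 * Complex.I)) (r2 * Complex.exp (p.2 * Complex.I))|) := by
      apply Continuous.measurable
      unfold dlc
      fun_prop
    have h2 : Measurable (fun p : ℝ × ℝ => ‖(r2 * Complex.exp (p.2 * Complex.I)) * (x : ℂ) - (r1 * Complex.exp (p.1 * Complex.I)) * (y : ℂ)‖) := by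
      apply Continuous.measurable
      fun_prop
    have h3 : Measurable (fun p : ℝ × ℝ => ‖(r1 * Complex.exp (p.1 * Complex.I) : ℂ)‖) := by
      apply Continuous.measurable
      fun_prop
    have h4 : Measurable (fun p : ℝ × ℝ => ‖(r2 * Complex.exp (p.2 * Complex.I) : ℂ)‖) := by
      apply Continuous.measurable
      fun_prop
    have h5 := h2.div h1
    exact ((hom.comp (h1.div_const D1)).mul (((hPhi.comp (h5.div_const P)).mul
      (hpsi.comp ((h3.mul h5).div_const M))).mul (hpsi.comp ((h4.mul h5).div_const M)))).div h1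
  · intro z1 z2 _ _ _ _
    rcases le_or_gt |dlc z1 z2| D1 with h | h
    · rw [Kf_eq, kr_small hD1 h, abs_zero, zero_mul]
      exact zero_le_one
    · have h1 := mul_le_mul_of_nonneg_right (habs z1 z2 h) (abs_nonneg (dlc z1 z2))
      rwa [one_div_mul_cancel (hD1.trans h).ne'] at h1

end Pool.Agent.N407.GN
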