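import Pool.Agent.N407.GN.Dvb
import Pool.Agent.H304R3.HK.LamH

/-!
# Project GN (helper782), LK: from `ℤ[i]` to the rational integers (helper407)
-/

set_option autoImplicit false

namespace Pool.Agent.N407.GN

open Finset
open Pool.Agent.N782.GN
open Pool.Agent.H304R3.HK (UH bb LamK CS)
open Pool.Agent.H304R3.HK.M4 (LamK_eq LamK_npp LamK_zero norm_assoc norm_pow' prime_of_norm mem_CS)

theorem LamK_bd {z : ZI} (hz : z ≠ 0) : 0 ≤ LamK z ∧ LamK z ≤ Real.log (nz z) := by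
  have h1 : ∀ w : ZI, w ≠ 0 → (1 : ℝ) ≤ ((Zsqrtd.norm w : ℤ) : ℝ) := by
    intro w hw
    have := GaussianInt.norm_pos.2 hw
    exact_mod_cast this
  by_cases H : ∃ x : ZI, Prime x ∧ ∃ k : ℕ, 0 < k ∧ Associated (x ^ k) z
  · obtain ⟨x, hx, k, hk, h⟩ := H
    rw [LamK_eq hx hk h]
    have h2 := h1 x hx.ne_zero
    refine ⟨Real.log_nonneg h2, ?_⟩
    unfold nz
    rw [← norm_assoc h, norm_pow', Int.cast_pow, Real.log_pow]
    have h3 : (1 : ℝ) ≤ k := by exact_mod_cast hk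
    nlinarith [Real.log_nonneg h2]
  · rw [LamK_zero]
    · exact ⟨le_refl 0, Real.log_nonneg (h1 z hz)⟩
    · intro x hx k hk h
      exact H ⟨x, hx, k, hk, h⟩

/-- one term -/
theorem lk_term {M : ℝ} (hM : 2 ≤ M) {l m : ℤ} (hl : 1 ≤ l) (hlM : (l : ℝ) ≤ M) (hm : |(m : ℝ)| ≤ M) :
    |LamK (⟨l, m⟩ : ZI) - ArithmeticFunction.vonMangoldt (l ^ 2 + m ^ 2).natAbs| ≤
      ∑ q ∈ ((Icc 1 ⌊2 * M⌋₊).filter Nat.Prime) ×ˢ (Icc 2 ⌊5 * Real.log M⌋₊),
        (if (l ^ 2 + m ^ 2).natAbs = q.1 ^ q.2 then 3 * Real.log M else 0) := by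
  set n := (l ^ 2 + m ^ 2).natAbs with hn
  have hpos : 0 < l ^ 2 + m ^ 2 := by positivity
  have hnn : (n : ℤ) = l ^ 2 + m ^ 2 := Int.natAbs_of_nonneg hpos.le
  have hn1 : 1 ≤ n := by omega
  have hnorm : Zsqrtd.norm (⟨l, m⟩ : ZI) = n := by
    rw [hnn, Zsqrtd.norm_def]
    ring
  have hnR : (n : ℝ) = (l : ℝ) ^ 2 + (m : ℝ) ^ 2 := by exact_mod_cast congrArg (fun t : ℤ => (t : ℝ)) hnn
  have hl0 : (0 : ℝ) ≤ l := by exact_mod_cast (by omega : (0 : ℤ) ≤ l)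
  have hn2 : (n : ℝ) ≤ 2 * M ^ 2 := by
    rw [hnR]
    have h1 : (m : ℝ) ^ 2 ≤ M ^ 2 := sq_le_sq' (abs_le.1 hm).1 (abs_le.1 hm).2
    nlinarith
  have hlog2 : Real.log 2 ≤ Real.log M := Real.log_le_log (by norm_num) hM
  have hl2 := Real.log_two_gt_d9
  have hlogn : Real.log n ≤ 3 * Real.log M := by
    have h1 : Real.log n ≤ Real.log (2 * M ^ 2) := Real.log_le_log (by exact_mod_cast hn1) hn2
    rw [Real.log_mul (by norm_num) (by positivity), Real.log_pow] at h1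
    push_cast at h1
    linarith
  have hnn0 : ∀ q ∈ ((Icc 1 ⌊2 * M⌋₊).filter Nat.Prime) ×ˢ (Icc 2 ⌊5 * Real.log M⌋₊),
      (0 : ℝ) ≤ (if n = q.1 ^ q.2 then 3 * Real.log M else 0) := by
    intro q _
    split_ifs
    · linarith
    · exact le_refl 0
  have hz : (⟨l, m⟩ : ZI) ≠ 0 := by
    intro h
    rw [h] at hnorm
    simp at hnorm
    omega
  by_cases hp : n.Prime
  · have h1 : LamK (⟨l, m⟩ : ZI) = Real.log n := by
      rw [LamK_eq (prime_of_norm hp hnorm) one_pos (by rw [pow_one]), hnorm]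
      simp
    rw [h1, ArithmeticFunction.vonMangoldt_apply_prime hp, sub_self, abs_zero]
    exact Finset.sum_nonneg hnn0
  by_cases hpp : IsPrimePow n
  · obtain ⟨p, k, hp1, hk, hpk⟩ := hpp
    have hp1' : p.Prime := hp1.nat_prime
    have hk2 : 2 ≤ k := by
      by_contra hcon
      have : k = 1 := by omega
      rw [this, pow_one] at hpk
      exact hp (hpk ▸ hp1')
    have hmem : (p, k) ∈ ((Icc 1 ⌊2 * M⌋₊).filter Nat.Prime) ×ˢ (Icc 2 ⌊5 * Real.log M⌋₊) := by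
      rw [mem_product, mem_filter, mem_Icc, mem_Icc]
      have hpkR : (p : ℝ) ^ k = n := by exact_mod_cast hpk
      have hp2 : (2 : ℝ) ≤ p := by exact_mod_cast hp1'.two_le
      refine ⟨⟨⟨hp1'.one_lt.le, ?_⟩, hp1'⟩, hk2, ?_⟩
      · apply Nat.le_floor
        have h1 : (p : ℝ) ^ 2 ≤ (p : ℝ) ^ k := pow_le_pow_right₀ (by linarith) hk2
        rw [hpkR] at h1
        nlinarith
      · apply Nat.le_floor
        have h1 : (2 : ℝ) ^ k ≤ n := by
          rw [← hpkR]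
          exact pow_le_pow_left₀ (by norm_num) hp2 k
        have h2 := Real.log_le_log (by positivity) h1
        rw [Real.log_pow] at h2
        have h3 : (k : ℝ) * Real.log 2 ≤ 3 * Real.log M := h2.trans hlogn
        have hk0 : (0 : ℝ) ≤ k := Nat.cast_nonneg k
        nlinarith
    have h3 := Finset.single_le_sum hnn0 hmem
    simp only at h3
    rw [if_pos hpk.symm] at h3
    refine le_trans ?_ h3
    obtain ⟨h4, h5⟩ := LamK_bd hz
    have h6 : nz (⟨l, m⟩ : ZI) = n := by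
      unfold nz
      rw [hnorm]
      simp
    rw [h6] at h5
    have h7 : (0 : ℝ) ≤ ArithmeticFunction.vonMangoldt n := ArithmeticFunction.vonMangoldt_nonneg
    have h8 : ArithmeticFunction.vonMangoldt n ≤ Real.log n := ArithmeticFunction.vonMangoldt_le_log
    rw [abs_le]
    constructor <;> linarith
  · rw [LamK_npp hpp hnorm, ArithmeticFunction.vonMangoldt_eq_zero_iff.2 hpp, sub_self, abs_zero]
    exact Finset.sum_nonneg hnn0

/-- (LK) from `ℤ[i]` to the rational integers -/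
theorem lk : S_LK := by
  classical
  refine ⟨1260, by norm_num, fun M L hM hL hLM => ?_⟩
  have hl2 := Real.log_two_gt_d9
  have hlog2 : Real.log 2 ≤ Real.log M := Real.log_le_log (by norm_num) hM
  have hlM : 0 ≤ Real.log M := by linarith
  rw [← Finset.sum_product' (Icc 1 ⌊L⌋) (Icc ⌈-M⌉ ⌊M⌋)
    (fun l m => |LamK (⟨l, m⟩ : ZI) - ArithmeticFunction.vonMangoldt (l ^ 2 + m ^ 2).natAbs|)]
  have h1 : ∀ x ∈ (Icc 1 ⌊L⌋) ×ˢ (Icc ⌈-M⌉ ⌊M⌋),
      |LamK (⟨x.1, x.2⟩ : ZI) - ArithmeticFunction.vonMangoldt (x.1 ^ 2 + x.2 ^ 2).natAbs| ≤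
      ∑ q ∈ ((Icc 1 ⌊2 * M⌋₊).filter Nat.Prime) ×ˢ (Icc 2 ⌊5 * Real.log M⌋₊),
        (if (x.1 ^ 2 + x.2 ^ 2).natAbs = q.1 ^ q.2 then 3 * Real.log M else 0) := by
    intro x hx
    rw [mem_product, mem_Icc, mem_Icc] at hx
    refine lk_term hM hx.1.1 ((Int.le_floor.1 hx.1.2).trans hLM) (abs_le.2 ⟨?_, Int.le_floor.1 hx.2.2⟩)
    exact Int.ceil_le.1 hx.2.1
  refine (Finset.sum_le_sum h1).trans ?_
  rw [Finset.sum_comm]
  have h2 : ∀ q ∈ ((Icc 1 ⌊2 * M⌋₊).filter Nat.Prime) ×ˢ (Icc 2 ⌊5 * Real.log M⌋₊),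
      ∑ x ∈ (Icc 1 ⌊L⌋) ×ˢ (Icc ⌈-M⌉ ⌊M⌋), (if (x.1 ^ 2 + x.2 ^ 2).natAbs = q.1 ^ q.2 then 3 * Real.log M else 0) ≤
      (28 * Real.log M) * (3 * Real.log M) := by
    intro q hq
    rw [mem_product, mem_filter, mem_Icc, mem_Icc] at hq
    obtain ⟨⟨⟨-, -⟩, hqp⟩, -, hq2⟩ := hq
    rw [← Finset.sum_filter, Finset.sum_const, nsmul_eq_mul]
    refine mul_le_mul_of_nonneg_right ?_ (by linarith)
    have h3 : ((Icc 1 ⌊L⌋) ×ˢ (Icc ⌈-M⌉ ⌊M⌋)).filter (fun x : ℤ × ℤ => (x.1 ^ 2 + x.2 ^ 2).natAbs = q.1 ^ q.2) ⊆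
        CS (q.1 ^ q.2) := by
      intro x hx
      rw [mem_filter] at hx
      have h4 : (((x.1 ^ 2 + x.2 ^ 2).natAbs : ℕ) : ℤ) = x.1 ^ 2 + x.2 ^ 2 :=
        Int.natAbs_of_nonneg (by positivity)
      have h5 : (x.1, x.2) ∈ CS (q.1 ^ q.2) := by
        rw [mem_CS, ← h4, hx.2]
      exact h5
    have h4 := (Finset.card_le_card h3).trans (CS_card (q.1 ^ q.2) (Nat.one_le_pow _ _ hqp.pos))
    rw [Nat.divisors_prime_pow hqp, Finset.card_map, Finset.card_range] at h4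
    have h5 : ((((Icc 1 ⌊L⌋) ×ˢ (Icc ⌈-M⌉ ⌊M⌋)).filter
        (fun x : ℤ × ℤ => (x.1 ^ 2 + x.2 ^ 2).natAbs = q.1 ^ q.2)).card : ℝ) ≤ 4 * ((q.2 : ℝ) + 1) := by
      exact_mod_cast h4
    refine h5.trans ?_
    have h6 : (q.2 : ℝ) ≤ 5 * Real.log M :=
      (Nat.le_floor_iff (by positivity)).1 hq2
    linarith
  refine (Finset.sum_le_sum h2).trans ?_
  rw [Finset.sum_const, nsmul_eq_mul, Finset.card_product]
  have h3 : (((((Icc 1 ⌊2 * M⌋₊).filter Nat.Prime).card * (Icc 2 ⌊5 * Real.log M⌋₊).card : ℕ)) : ℝ) ≤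
      (2 * M) * (5 * Real.log M) := by
    push_cast
    refine mul_le_mul ?_ ?_ (Nat.cast_nonneg _) (by linarith)
    · have h4 : ((Icc 1 ⌊2 * M⌋₊).filter Nat.Prime).card ≤ ⌊2 * M⌋₊ := by
        refine (Finset.card_filter_le _ _).trans ?_
        rw [Nat.card_Icc]
        omega
      exact (show (_ : ℝ) ≤ ((⌊2 * M⌋₊ : ℕ) : ℝ) from by exact_mod_cast h4).trans
        (Nat.floor_le (by linarith))
    · have h4 : (Icc 2 ⌊5 * Real.log M⌋₊).card ≤ ⌊5 * Real.log M⌋₊ := by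
        rw [Nat.card_Icc]
        omega
      exact (show (_ : ℝ) ≤ ((⌊5 * Real.log M⌋₊ : ℕ) : ℝ) from by exact_mod_cast h4).trans
        (Nat.floor_le (by positivity))
  refine (mul_le_mul_of_nonneg_right h3 (by positivity)).trans ?_
  have h5 : 0 ≤ M * Real.log M ^ 3 := by positivity
  nlinarith

end Pool.Agent.N407.GN
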