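import Pool.Agent.N782.GN.StmT
import Pool.Agent.W468.CFProd

/-!
# Project GN (helper782), SSL: the singular series converges (helper407)
-/

set_option autoImplicit false

namespace Pool.Agent.N407.GN

open Finset Filter Topology
open Pool.Agent.N782.GN
open Pool.Agent.W468.ConjF (PJ PJ_tendsto factor_pos)

theorem pp_factor_pos (p : ℕ) (hp : 3 ≤ p) (hpp : p.Prime) :
    1 - ((ZMod.χ₄ (p : ZMod 4) : ℤ) : ℝ) / ((p : ℝ) - 1) = 1 - (jacobiSym (-1) p : ℝ) / ((p : ℝ) - 1) := by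
  rw [jacobiSym.at_neg_one (hpp.odd_of_ne_two (by omega))]

theorem pp_pos (l : ℤ) (z : ℕ) : 0 < pp l z := by
  unfold pp
  refine Finset.prod_pos fun p hp => ?_
  rw [mem_filter, mem_Icc] at hp
  rw [pp_factor_pos p hp.1.1 hp.2.1]
  exact factor_pos (-1) p hp.1.1

theorem pp_split (l : ℤ) (hl : l ≠ 0) (z N : ℕ) (hz2 : 2 ≤ z) (hz : l.natAbs ≤ z) (hN : z ≤ N) :
    pp l N = pp l z * PJ (-1) z N := by
  unfold pp PJ
  have e2 : (Icc 3 N).filter (fun p : ℕ => p.Prime ∧ ¬ (p : ℤ) ∣ l) =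
      (Icc 3 z).filter (fun p : ℕ => p.Prime ∧ ¬ (p : ℤ) ∣ l) ∪ (Ioc z N).filter Nat.Prime := by
    ext p
    simp only [mem_filter, mem_Icc, mem_union, mem_Ioc]
    constructor
    · rintro ⟨h0, h1, h2⟩
      by_cases h4 : p ≤ z
      · exact Or.inl ⟨⟨h0.1, h4⟩, h1, h2⟩
      · exact Or.inr ⟨by omega, h1⟩
    · rintro (⟨h0, h1, h2⟩ | ⟨h0, h1⟩)
      · exact ⟨by omega, h1, h2⟩
      · refine ⟨by omega, h1, fun hd => ?_⟩
        have h5 := Nat.le_of_dvd (Int.natAbs_pos.2 hl) (Int.natCast_dvd.1 hd)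
        omega
  have e3 : Disjoint ((Icc 3 z).filter (fun p : ℕ => p.Prime ∧ ¬ (p : ℤ) ∣ l)) ((Ioc z N).filter Nat.Prime) := by
    rw [Finset.disjoint_left]
    intro p h1 h2
    simp only [mem_filter, mem_Icc, mem_Ioc] at h1 h2
    omega
  rw [e2, prod_union e3]
  congr 1
  refine Finset.prod_congr rfl fun p hp => ?_
  rw [mem_filter, mem_Ioc] at hp
  exact pp_factor_pos p (by omega) hp.2

/-- (SSL) the singular series converges -/
theorem ssl : S_SSL := by
  intro l hl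
  have hD : ¬ IsSquare (-1 : ℤ) := by
    rintro ⟨r, hr⟩
    nlinarith [mul_self_nonneg r]
  obtain ⟨K, hK, hT⟩ := PJ_tendsto (-1) hD (l.natAbs + 2) (by omega)
  have h1 : Tendsto (pp l) atTop (𝓝 (pp l (l.natAbs + 2) * K)) := by
    refine (hT.const_mul (pp l (l.natAbs + 2))).congr' ?_
    filter_upwards [eventually_ge_atTop (l.natAbs + 2)] with N hN
    exact (pp_split l hl _ N (by omega) (by omega) hN).symm
  have h2 : SS l = pp l (l.natAbs + 2) * K := h1.limUnder_eq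
  rw [h2]
  exact ⟨h1, mul_pos (pp_pos l _) hK⟩

end Pool.Agent.N407.GN
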