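import Pool.Agent.N407.GN.Vau

/-!
# Project GN (helper782), TIL: linear sums with a logarithmic weight (helper407)
-/

set_option autoImplicit false

namespace Pool.Agent.N407.GN

open Finset
open Pool.Agent.N782.GN

/-- `log (j + 1) - log j` -/
noncomputable def gl (j : ℕ) : ℝ := Real.log ((j + 1 : ℕ) : ℝ) - Real.log (j : ℝ)

theorem gl_nonneg {j : ℕ} (hj : 1 ≤ j) : 0 ≤ gl j := by
  unfold gl
  have h1 : (0 : ℝ) < j := by exact_mod_cast hj
  have := Real.log_le_log h1 (show (j : ℝ) ≤ ((j + 1 : ℕ) : ℝ) by push_cast; linarith)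
  linarith

theorem gl_upper {j : ℕ} (hj : 1 ≤ j) : (j : ℝ) * gl j ≤ 1 := by
  have h1 : (0 : ℝ) < j := by exact_mod_cast hj
  have h2 : gl j = Real.log (((j + 1 : ℕ) : ℝ) / j) := by
    unfold gl
    rw [Real.log_div (by positivity) h1.ne']
  have h3 := Real.log_le_sub_one_of_pos (show (0 : ℝ) < ((j + 1 : ℕ) : ℝ) / j by positivity)
  rw [← h2] at h3
  have h4 : ((j + 1 : ℕ) : ℝ) / j - 1 = 1 / j := by
    push_cast
    field_simp
    ring
  rw [h4] at h3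
  calc (j : ℝ) * gl j ≤ j * (1 / j) := mul_le_mul_of_nonneg_left h3 h1.le
    _ = 1 := by field_simp

theorem gl_lower {j : ℕ} (hj : 1 ≤ j) : 1 ≤ ((j : ℝ) + 1) * gl j := by
  have h1 : (0 : ℝ) < j := by exact_mod_cast hj
  have h2 : gl j = -Real.log ((j : ℝ) / ((j + 1 : ℕ) : ℝ)) := by
    unfold gl
    rw [Real.log_div h1.ne' (by positivity)]
    ring
  have h3 := Real.log_le_sub_one_of_pos (show (0 : ℝ) < (j : ℝ) / ((j + 1 : ℕ) : ℝ) by positivity)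
  have h4 : (j : ℝ) / ((j + 1 : ℕ) : ℝ) - 1 = -(1 / ((j : ℝ) + 1)) := by
    push_cast
    field_simp
    ring
  rw [h4] at h3
  have h5 : 1 / ((j : ℝ) + 1) ≤ gl j := by rw [h2]; linarith
  calc (1 : ℝ) = ((j : ℝ) + 1) * (1 / ((j : ℝ) + 1)) := by field_simp
    _ ≤ _ := mul_le_mul_of_nonneg_left h5 (by positivity)

theorem gl_sum {n N : ℕ} (h : n ≤ N) : ∑ j ∈ Ico n N, gl j = Real.log N - Real.log n := by
  unfold gl
  exact Finset.sum_Ico_sub (fun j : ℕ => Real.log (j : ℝ)) h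

theorem gl_st {n : ℕ} (hn : 1 ≤ n) :
    n * Real.log n - n ≤ n * Real.log n - ∑ j ∈ Ico 1 n, gl j * j ∧
    n * Real.log n - ∑ j ∈ Ico 1 n, gl j * j ≤ n * Real.log n - n + Real.log n + 1 := by
  induction n, hn using Nat.le_induction with
  | base => simp
  | succ n hn ih =>
    rw [Finset.sum_Ico_succ_top hn]
    have h1 := gl_upper hn
    have h2 := gl_lower hn
    have h3 : Real.log ((n + 1 : ℕ) : ℝ) = Real.log n + gl n := by unfold gl; ring
    rw [h3]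
    push_cast
    obtain ⟨i1, i2⟩ := ih
    constructor
    · nlinarith
    · nlinarith

theorem f_diff {M N : ℝ} (hN : 1 ≤ N) (hNM : N ≤ M) (hMN : M ≤ N + 1) :
    |(M * Real.log M - M) - (N * Real.log N - N)| ≤ Real.log M := by
  have hM0 : 0 < M := by linarith
  have hN0 : 0 < N := by linarith
  have h1 : N * (Real.log M - Real.log N) ≤ M - N := by
    have h2 := Real.log_le_sub_one_of_pos (show (0 : ℝ) < M / N by positivity)
    rw [Real.log_div hM0.ne' hN0.ne'] at h2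
    calc N * (Real.log M - Real.log N) ≤ N * (M / N - 1) := mul_le_mul_of_nonneg_left h2 hN0.le
      _ = M - N := by field_simp
  have h2 : M - N ≤ M * (Real.log M - Real.log N) := by
    have h2 := Real.log_le_sub_one_of_pos (show (0 : ℝ) < N / M by positivity)
    rw [Real.log_div hN0.ne' hM0.ne'] at h2
    have h3 : M * (Real.log N - Real.log M) ≤ N - M := by
      calc M * (Real.log N - Real.log M) ≤ M * (N / M - 1) := mul_le_mul_of_nonneg_left h2 hM0.le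
        _ = N - M := by field_simp
    linarith
  have hl1 : 0 ≤ Real.log N := Real.log_nonneg hN
  have hl2 : 0 ≤ Real.log M := Real.log_nonneg (hN.trans hNM)
  rw [abs_le]
  constructor
  · nlinarith
  · nlinarith

/-- the logarithm by partial summation -/
theorem log_abel {N : ℕ} (hN : 1 ≤ N) {m : ℤ} (hm : m.natAbs ≤ N) :
    Real.log |(m : ℝ)| = Real.log N - ∑ j ∈ Ico 1 N, (if m.natAbs ≤ j then gl j else 0) := by
  have h1 : |(m : ℝ)| = (m.natAbs : ℝ) := by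
    rw [Nat.cast_natAbs, Int.cast_abs]
  rw [h1, ← Finset.sum_filter]
  have h2 : (Ico 1 N).filter (fun j => m.natAbs ≤ j) = Ico (max m.natAbs 1) N := by
    ext j
    rw [mem_filter, mem_Ico, mem_Ico]
    omega
  rw [h2, gl_sum (by omega)]
  rcases Nat.eq_zero_or_pos m.natAbs with h | h
  · rw [h]
    simp
  · rw [max_eq_left h]
    ring

open Classical in
/-- the elements of `[-N, N]` with `a ∣ l + i m` -/
noncomputable def sA (N : ℕ) (a : ZI) (l : ℤ) : Finset ℤ :=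
  (Icc (-(N : ℤ)) N).filter (fun m : ℤ => a ∣ (⟨l, m⟩ : ZI))

theorem nm_nat (N : ℕ) (a : ZI) (l : ℤ) : nm (N : ℝ) a l = ((sA N a l).card : ℝ) := by
  classical
  unfold nm sA
  have h1 : ⌈-(N : ℝ)⌉ = -(N : ℤ) := by
    rw [Int.ceil_neg, Int.floor_natCast]
  rw [h1, Int.floor_natCast]

theorem floor_neg {M : ℝ} (hM : 0 ≤ M) : ⌈-M⌉ = -((⌊M⌋₊ : ℕ) : ℤ) ∧ ⌊M⌋ = ((⌊M⌋₊ : ℕ) : ℤ) := by
  rw [Int.ceil_neg, Int.natCast_floor_eq_floor hM]
  exact ⟨rfl, rfl⟩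

theorem nml_eq {M : ℝ} (hM : 1 ≤ M) (a : ZI) (l : ℤ) :
    nml M a l = 2 * Real.log (⌊M⌋₊ : ℝ) * nm (⌊M⌋₊ : ℝ) a l -
      2 * ∑ j ∈ Ico 1 ⌊M⌋₊, gl j * nm (j : ℝ) a l := by
  classical
  have hN : 1 ≤ ⌊M⌋₊ := Nat.le_floor (by exact_mod_cast hM)
  have h1 : nml M a l = ∑ m ∈ sA ⌊M⌋₊ a l, 2 * Real.log |(m : ℝ)| := by
    unfold nml sA
    rw [(floor_neg (by linarith : (0 : ℝ) ≤ M)).1, (floor_neg (by linarith : (0 : ℝ) ≤ M)).2, Finset.sum_filter,
      Finset.sum_filter]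
    refine Finset.sum_congr rfl fun m _ => ?_
    by_cases hm : m = 0
    · rw [hm]
      simp
    · by_cases h : a ∣ (⟨l, m⟩ : ZI)
      · rw [if_pos ⟨hm, h⟩, if_pos h]
      · rw [if_neg (fun h' => h h'.2), if_neg h]
  have h2 : ∀ m ∈ sA ⌊M⌋₊ a l, m.natAbs ≤ ⌊M⌋₊ := by
    intro m hm
    unfold sA at hm
    rw [mem_filter, mem_Icc] at hm
    omega
  have h3 : ∀ j ∈ Ico 1 ⌊M⌋₊, nm (j : ℝ) a l = ∑ m ∈ sA ⌊M⌋₊ a l, (if m.natAbs ≤ j then (1 : ℝ) else 0) := by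
    intro j hj
    rw [mem_Ico] at hj
    rw [nm_nat, ← Finset.sum_filter, Finset.sum_const, nsmul_eq_mul, mul_one]
    congr 2
    unfold sA
    rw [Finset.filter_filter]
    ext m
    rw [mem_filter, mem_filter, mem_Icc, mem_Icc]
    constructor
    · rintro ⟨h4, h5⟩
      exact ⟨by omega, h5, by omega⟩
    · rintro ⟨h4, h5, h6⟩
      exact ⟨by omega, h5⟩
  have h4 : ∑ m ∈ sA ⌊M⌋₊ a l, 2 * Real.log |(m : ℝ)| = ∑ m ∈ sA ⌊M⌋₊ a l, (2 * Real.log (⌊M⌋₊ : ℝ) -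
      ∑ j ∈ Ico 1 ⌊M⌋₊, 2 * (if m.natAbs ≤ j then gl j else 0)) := by
    refine Finset.sum_congr rfl fun m hm => ?_
    rw [log_abel hN (h2 m hm), ← Finset.mul_sum]
    ring
  have h5 : 2 * ∑ j ∈ Ico 1 ⌊M⌋₊, gl j * nm (j : ℝ) a l =
      ∑ j ∈ Ico 1 ⌊M⌋₊, ∑ m ∈ sA ⌊M⌋₊ a l, 2 * (if m.natAbs ≤ j then gl j else 0) := by
    rw [Finset.mul_sum]
    refine Finset.sum_congr rfl fun j hj => ?_
    rw [h3 j hj, Finset.mul_sum, Finset.mul_sum]
    refine Finset.sum_congr rfl fun m _ => ?_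
    split_ifs <;> ring
  rw [h1, h4, h5, Finset.sum_sub_distrib, Finset.sum_const, nsmul_eq_mul, nm_nat]
  congr 1
  · ring
  · exact Finset.sum_comm

/-- the error of the linear sums -/
noncomputable def EE (M L D : ℝ) (lam : ℤ → ℝ) : ℝ :=
  ∑ a ∈ bl D, |∑ l ∈ Icc 1 ⌊L⌋, lam l * (nm M a l - 2 * M * (kap l a / nz a))|

/-- the sum of the densities -/
noncomputable def KK (L D : ℝ) : ℝ := ∑ a ∈ bl D, ∑ l ∈ Icc 1 ⌊L⌋, kap l a / nz a

theorem kq_nonneg (l : ℤ) (a : ZI) : 0 ≤ kap l a / nz a := by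
  apply div_nonneg _ (nz_nonneg a)
  unfold kap
  split_ifs
  · exact Nat.cast_nonneg _
  · exact le_refl 0

theorem KK_nonneg (L D : ℝ) : 0 ≤ KK L D :=
  Finset.sum_nonneg fun a _ => Finset.sum_nonneg fun l _ => kq_nonneg l a

theorem EE_nonneg (M L D : ℝ) (lam : ℤ → ℝ) : 0 ≤ EE M L D lam :=
  Finset.sum_nonneg fun _ _ => abs_nonneg _

theorem nm_nonneg (M : ℝ) (a : ZI) (l : ℤ) : 0 ≤ nm M a l := by
  unfold nm
  exact Nat.cast_nonneg _

/-- the sum over all divisors -/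
theorem nm_sum {C₀ δ M L D : ℝ} (h0 : ∀ z : ZI, z ≠ 0 → (dv z : ℝ) ≤ C₀ * (nz z) ^ δ) (hδ : 0 < δ) (hC₀ : 0 < C₀)
    (hM : 1 ≤ M) (hL : 1 ≤ L) (hLM : L ≤ M) (j : ℕ) (hj : (j : ℝ) ≤ M) :
    ∑ a ∈ bl D, ∑ l ∈ Icc 1 ⌊L⌋, nm (j : ℝ) a l ≤ L * (2 * j + 1) * (C₀ * (2 * M ^ 2) ^ δ) := by
  classical
  have h1 : ∀ a ∈ bl D, ∀ l ∈ Icc 1 ⌊L⌋, nm (j : ℝ) a l =
      ∑ m ∈ Icc (-(j : ℤ)) j, (if a ∣ (⟨l, m⟩ : ZI) then (1 : ℝ) else 0) := by
    intro a _ l _
    rw [nm_nat, ← Finset.sum_filter, Finset.sum_const, nsmul_eq_mul, mul_one]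
    rfl
  rw [Finset.sum_congr rfl (fun a ha => Finset.sum_congr rfl (fun l hl => h1 a ha l hl)), Finset.sum_comm]
  have h2 : ∀ l ∈ Icc 1 ⌊L⌋, ∑ a ∈ bl D, ∑ m ∈ Icc (-(j : ℤ)) j, (if a ∣ (⟨l, m⟩ : ZI) then (1 : ℝ) else 0) ≤
      (2 * j + 1) * (C₀ * (2 * M ^ 2) ^ δ) := by
    intro l hl
    rw [mem_Icc] at hl
    rw [Finset.sum_comm]
    have h3 : ∀ m ∈ Icc (-(j : ℤ)) j, ∑ a ∈ bl D, (if a ∣ (⟨l, m⟩ : ZI) then (1 : ℝ) else 0) ≤
        C₀ * (2 * M ^ 2) ^ δ := by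
      intro m hm
      rw [mem_Icc] at hm
      have hz : (⟨l, m⟩ : ZI) ≠ 0 := by
        intro h
        have := congrArg Zsqrtd.re h
        simp only [Zsqrtd.re_zero] at this
        omega
      rw [← Finset.sum_filter, Finset.sum_const, nsmul_eq_mul, mul_one]
      have h4 : (bl D).filter (fun a => a ∣ (⟨l, m⟩ : ZI)) ⊆ dd (⟨l, m⟩ : ZI) := by
        intro a ha
        rw [mem_filter] at ha
        rw [mem_dd hz]
        exact ha.2
      have h5 : (((bl D).filter (fun a => a ∣ (⟨l, m⟩ : ZI))).card : ℝ) ≤ (dv (⟨l, m⟩ : ZI) : ℝ) := by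
        have := Finset.card_le_card h4
        unfold dd at this
        unfold dv
        exact_mod_cast this
      refine h5.trans ((h0 _ hz).trans (mul_le_mul_of_nonneg_left ?_ hC₀.le))
      refine Real.rpow_le_rpow (nz_nonneg _) ?_ hδ.le
      rw [nz_eq]
      have hl1 : (1 : ℝ) ≤ l := by exact_mod_cast hl.1
      have hl2 : (l : ℝ) ≤ M := (Int.le_floor.1 hl.2).trans hLM
      have hm1 : -(j : ℝ) ≤ m := by exact_mod_cast hm.1
      have hm2 : (m : ℝ) ≤ j := by exact_mod_cast hm.2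
      have hm3 : (m : ℝ) ^ 2 ≤ M ^ 2 := sq_le_sq' (by linarith) (by linarith)
      have hl3 : (l : ℝ) ^ 2 ≤ M ^ 2 := sq_le_sq' (by linarith) hl2
      show (l : ℝ) ^ 2 + (m : ℝ) ^ 2 ≤ 2 * M ^ 2
      linarith
    refine (Finset.sum_le_sum h3).trans (le_of_eq ?_)
    rw [Finset.sum_const, nsmul_eq_mul, Int.card_Icc]
    congr 1
    have : ((j : ℤ) + 1 - -(j : ℤ)).toNat = 2 * j + 1 := by omega
    rw [this]
    push_cast
    ring
  refine (Finset.sum_le_sum h2).trans ?_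
  rw [Finset.sum_const, nsmul_eq_mul, Int.card_Icc]
  have h6 : (((⌊L⌋ + 1 - 1).toNat : ℕ) : ℝ) ≤ L := by
    rw [add_sub_cancel_right]
    have h7 : 0 ≤ ⌊L⌋ := Int.floor_nonneg.2 (by linarith)
    have h8 : (((⌊L⌋.toNat : ℕ) : ℤ) : ℝ) = (⌊L⌋ : ℝ) := by rw [Int.toNat_of_nonneg h7]
    rw [Int.cast_natCast] at h8
    rw [h8]
    exact Int.floor_le L
  calc _ ≤ L * ((2 * j + 1) * (C₀ * (2 * M ^ 2) ^ δ)) := mul_le_mul_of_nonneg_right h6 (by positivity)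
    _ = _ := by ring

/-- trivial bound -/
theorem EE_triv {M L D : ℝ} {lam : ℤ → ℝ} (hM : 0 ≤ M) (hlam : Lm L lam) :
    EE M L D lam ≤ ∑ a ∈ bl D, ∑ l ∈ Icc 1 ⌊L⌋, nm M a l + 2 * M * KK L D := by
  unfold EE KK
  rw [Finset.mul_sum, ← Finset.sum_add_distrib]
  refine Finset.sum_le_sum fun a _ => ?_
  rw [Finset.mul_sum, ← Finset.sum_add_distrib]
  refine (Finset.abs_sum_le_sum_abs _ _).trans (Finset.sum_le_sum fun l _ => ?_)
  rw [abs_mul]
  have h1 := kq_nonneg l a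
  have h2 := nm_nonneg M a l
  have h3 : |nm M a l - 2 * M * (kap l a / nz a)| ≤ nm M a l + 2 * M * (kap l a / nz a) := by
    have h4 : 0 ≤ 2 * M * (kap l a / nz a) := by positivity
    rw [abs_le]
    constructor <;> linarith
  calc |lam l| * _ ≤ 1 * _ := mul_le_mul_of_nonneg_right (hlam.1 l) (abs_nonneg _)
    _ ≤ _ := by rw [one_mul]; exact h3

/-- the sum of the densities, from TI -/
theorem KK_le {C L D M T B : ℝ} (hM : 0 < M) (h1 : ∀ lam : ℤ → ℝ, Lm L lam → EE M L D lam ≤ T)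
    (h2 : ∑ a ∈ bl D, ∑ l ∈ Icc 1 ⌊L⌋, nm M a l ≤ B) (hC : C = (T + B) / (2 * M)) : KK L D ≤ C := by
  classical
  rw [hC, le_div_iff₀ (by positivity)]
  have h3 := h1 (fun l => if 1 ≤ l ∧ (l : ℝ) ≤ L then 1 else 0) ⟨fun l => by
    show |(if 1 ≤ l ∧ (l : ℝ) ≤ L then (1 : ℝ) else 0)| ≤ 1
    split_ifs <;> simp, fun l hl => by
    show (if 1 ≤ l ∧ (l : ℝ) ≤ L then (1 : ℝ) else 0) = 0
    rw [if_neg]
    rintro ⟨h4, h5⟩
    rcases hl with hl | hl
    · omega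
    · linarith⟩
  have h4 : KK L D * (2 * M) - ∑ a ∈ bl D, ∑ l ∈ Icc 1 ⌊L⌋, nm M a l ≤
      EE M L D (fun l => if 1 ≤ l ∧ (l : ℝ) ≤ L then 1 else 0) := by
    unfold EE KK
    rw [Finset.sum_mul, ← Finset.sum_sub_distrib]
    refine Finset.sum_le_sum fun a _ => ?_
    have h5 : ∑ l ∈ Icc 1 ⌊L⌋, (if 1 ≤ l ∧ (l : ℝ) ≤ L then (1 : ℝ) else 0) *
        (nm M a l - 2 * M * (kap l a / nz a)) =
        ∑ l ∈ Icc 1 ⌊L⌋, (nm M a l - 2 * M * (kap l a / nz a)) := by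
      refine Finset.sum_congr rfl fun l hl => ?_
      rw [mem_Icc] at hl
      rw [if_pos ⟨hl.1, Int.le_floor.1 hl.2⟩, one_mul]
    rw [h5]
    refine le_trans (le_of_eq ?_) (neg_le_abs _)
    rw [Finset.sum_sub_distrib, ← Finset.mul_sum]
    ring
  linarith

/-- (TIL) linear sums with a logarithmic weight -/
theorem til (h0 : S_DVB) (h1 : S_TI) : S_TIL := by
  classical
  intro ε hε
  rcases lt_or_ge 1 ε with hε1 | hε1
  · refine ⟨1, one_pos, fun M L D lam hM hL hLM _ _ _ => ?_⟩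
    exfalso
    have : M ^ (1 - ε) < 1 := Real.rpow_lt_one_of_one_lt_of_neg (by linarith) (by linarith)
    linarith
  obtain ⟨C₀, hC₀, h0'⟩ := h0 (ε / 80) (by linarith)
  obtain ⟨C₁, hC₁, h1'⟩ := h1 (9 * ε / 10) (by linarith)
  -- the logarithm
  obtain ⟨C₂, hC₂⟩ : ∃ C₂, C₂ = 100 / ε := ⟨_, rfl⟩
  have hC₂0 : 0 < C₂ := by rw [hC₂]; positivity
  have hlogb : ∀ M : ℝ, 2 ≤ M → Real.log M ≤ C₂ * M ^ (ε / 100) := by
    intro M hM
    have := Real.log_le_rpow_div (show (0 : ℝ) ≤ M by linarith) (show (0 : ℝ) < ε / 100 by linarith)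
    refine this.trans (le_of_eq ?_)
    rw [hC₂]
    field_simp
  -- constants
  obtain ⟨A, hA⟩ : ∃ A, A = C₁ + 6 * C₀ := ⟨_, rfl⟩
  have hA0 : 0 < A := by rw [hA]; positivity
  refine ⟨(4 * (3 * A + 6 * C₀ + C₁) + 16 * A) * C₂, by positivity, fun M L D lam hM hL hLM hD hDM hlam => ?_⟩
  have hM0 : 0 < M := by linarith
  have hM1 : 1 ≤ M := by linarith
  have hL0 : 0 < L := by linarith
  have hLM' : L ≤ M := hLM.trans (by
    calc M ^ (1 - ε) ≤ M ^ (1 : ℝ) := Real.rpow_le_rpow_of_exponent_le hM1 (by linarith)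
      _ = M := Real.rpow_one M)
  obtain ⟨N, hN⟩ : ∃ N : ℕ, N = ⌊M⌋₊ := ⟨_, rfl⟩
  have hN2 : 2 ≤ N := by rw [hN]; exact Nat.le_floor (by exact_mod_cast hM)
  have hNM : (N : ℝ) ≤ M := by rw [hN]; exact Nat.floor_le hM0.le
  have hMN : M ≤ N + 1 := by rw [hN]; exact (Nat.lt_floor_add_one M).le
  have hN1r : (1 : ℝ) ≤ N := by exact_mod_cast (by omega : 1 ≤ N)
  have hl2 := Real.log_two_gt_d9
  have hlM2 : Real.log 2 ≤ Real.log M := Real.log_le_log (by norm_num) hM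
  have hlM : 0 < Real.log M := by linarith
  -- powers
  obtain ⟨Z, hZ⟩ : ∃ Z, Z = M ^ (1 - 3 * ε / 40) := ⟨_, rfl⟩
  have hZ0 : 0 < Z := by rw [hZ]; exact Real.rpow_pos_of_pos hM0 _
  have hpow2 : (2 * M ^ 2) ^ (ε / 80) ≤ 2 * M ^ (ε / 40) := by
    rw [Real.mul_rpow (by norm_num) (by positivity)]
    refine mul_le_mul ?_ (le_of_eq ?_) (by positivity) (by norm_num)
    · calc (2 : ℝ) ^ (ε / 80) ≤ 2 ^ (1 : ℝ) := Real.rpow_le_rpow_of_exponent_le (by norm_num) (by linarith)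
        _ = 2 := Real.rpow_one 2
    · rw [← Real.rpow_natCast, ← Real.rpow_mul hM0.le]
      congr 1
      push_cast
      ring
  have hZM : M ^ (1 - ε / 10) * M ^ (ε / 40) = Z := by
    rw [hZ, ← Real.rpow_add hM0]
    congr 1
    ring
  have hZ2 : M ^ (1 - 9 * ε / 10 / 10) ≤ Z := by
    rw [hZ]
    exact Real.rpow_le_rpow_of_exponent_le hM1 (by linarith)
  have hZ3 : M ^ (ε / 40) ≤ Z := by
    rw [hZ]
    exact Real.rpow_le_rpow_of_exponent_le hM1 (by linarith)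
  -- sum of the densities
  have hTN : ∀ j : ℕ, 2 ≤ j → (j : ℝ) ≤ M → M ^ (1 - ε / 10) ≤ j → ∀ lam : ℤ → ℝ, Lm L lam →
      EE (j : ℝ) L D lam ≤ C₁ * L * (j : ℝ) ^ (1 - 9 * ε / 10 / 10) := by
    intro j hj2 hjM hj lam hlam
    have hj0 : (0 : ℝ) < j := by positivity
    have hkey : M ^ (1 - ε) ≤ (j : ℝ) ^ (1 - 9 * ε / 10) := by
      calc M ^ (1 - ε) ≤ M ^ ((1 - ε / 10) * (1 - 9 * ε / 10)) :=
            Real.rpow_le_rpow_of_exponent_le hM1 (by nlinarith)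
        _ = (M ^ (1 - ε / 10)) ^ (1 - 9 * ε / 10) := Real.rpow_mul hM0.le _ _
        _ ≤ (j : ℝ) ^ (1 - 9 * ε / 10) := Real.rpow_le_rpow (by positivity) hj (by linarith)
    exact h1' j L D lam (by exact_mod_cast hj2) hL (hLM.trans hkey) hD
      (hDM.trans (mul_le_mul_of_nonneg_left hkey hL0.le)) hlam
  have hnmj : ∀ j : ℕ, 1 ≤ j → (j : ℝ) ≤ M → ∑ a ∈ bl D, ∑ l ∈ Icc 1 ⌊L⌋, nm (j : ℝ) a l ≤
      6 * C₀ * L * j * M ^ (ε / 40) := by
    intro j hj1 hjM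
    refine (nm_sum h0' (by linarith) hC₀ hM1 hL hLM' j hjM).trans ?_
    have hj1' : (1 : ℝ) ≤ j := by exact_mod_cast hj1
    calc L * (2 * j + 1) * (C₀ * (2 * M ^ 2) ^ (ε / 80)) ≤ L * (3 * j) * (C₀ * (2 * M ^ (ε / 40))) := by
          refine mul_le_mul (mul_le_mul_of_nonneg_left (by linarith) hL0.le)
            (mul_le_mul_of_nonneg_left hpow2 hC₀.le) (by positivity) (by positivity)
      _ = _ := by ring
  have hK : KK L D ≤ A * L * M ^ (ε / 40) := by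
    have hK1 := KK_le (C := _) (L := L) (D := D) (M := M) (T := C₁ * L * M) (B := L * (2 * M + 1) * (C₀ * (2 * M ^ 2) ^ (ε / 80)))
      hM0 ?_ ?_ rfl
    · refine hK1.trans ?_
      rw [div_le_iff₀ (by positivity), hA]
      have h3 : 1 ≤ M ^ (ε / 40) := Real.one_le_rpow hM1 (by linarith)
      have h4 : L * (2 * M + 1) * (C₀ * (2 * M ^ 2) ^ (ε / 80)) ≤ L * (3 * M) * (C₀ * (2 * M ^ (ε / 40))) := by
        refine mul_le_mul (mul_le_mul_of_nonneg_left (by linarith) hL0.le)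
            (mul_le_mul_of_nonneg_left hpow2 hC₀.le) (by positivity) (by positivity)
      have h5 : C₁ * L * M ≤ C₁ * L * M * M ^ (ε / 40) := le_mul_of_one_le_right (by positivity) h3
      have h6 : 0 ≤ C₁ * L * M * M ^ (ε / 40) := by positivity
      have h7 : 0 ≤ C₀ * L * M * M ^ (ε / 40) := by positivity
      nlinarith
    · intro lam hlam
      have := h1' M L D lam hM hL (hLM.trans (Real.rpow_le_rpow_of_exponent_le hM1 (by linarith))) hD
        (hDM.trans (mul_le_mul_of_nonneg_left (Real.rpow_le_rpow_of_exponent_le hM1 (by linarith)) hL0.le)) hlam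
      refine this.trans (mul_le_mul_of_nonneg_left ?_ (by positivity))
      calc M ^ (1 - 9 * ε / 10 / 10) ≤ M ^ (1 : ℝ) := Real.rpow_le_rpow_of_exponent_le hM1 (by linarith)
        _ = M := Real.rpow_one M
    · -- `nm` at a real `M`
      have e1 : ∀ (a : ZI) (l : ℤ), nm M a l = nm ((N : ℕ) : ℝ) a l := by
        intro a l
        unfold nm
        rw [(floor_neg hM0.le).1, (floor_neg hM0.le).2, ← hN,
          show ⌈-((N : ℕ) : ℝ)⌉ = -(N : ℤ) by rw [Int.ceil_neg, Int.floor_natCast], Int.floor_natCast]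
      simp only [e1]
      refine (nm_sum h0' (by linarith) hC₀ hM1 hL hLM' N hNM).trans ?_
      refine mul_le_mul_of_nonneg_right (mul_le_mul_of_nonneg_left (by linarith) hL0.le) (by positivity)
  -- the error at all `j`
  obtain ⟨B, hB⟩ : ∃ B, B = (3 * A + 6 * C₀ + C₁) * L * Z := ⟨_, rfl⟩
  have hB0 : 0 < B := by rw [hB]; positivity
  have hEj : ∀ j : ℕ, 1 ≤ j → (j : ℝ) ≤ M → EE (j : ℝ) L D lam ≤ B := by
    intro j hj1 hjM
    have hj1' : (1 : ℝ) ≤ j := by exact_mod_cast hj1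
    rcases le_or_gt (j : ℝ) (M ^ (1 - ε / 10)) with hj | hj
    · refine (EE_triv (by linarith) hlam).trans ?_
      have h2 := hnmj j hj1 hjM
      have h3 : 6 * C₀ * L * j * M ^ (ε / 40) ≤ 6 * C₀ * L * Z := by
        rw [← hZM]
        have h4 : (j : ℝ) * M ^ (ε / 40) ≤ M ^ (1 - ε / 10) * M ^ (ε / 40) :=
          mul_le_mul_of_nonneg_right hj (by positivity)
        calc 6 * C₀ * L * j * M ^ (ε / 40) = 6 * C₀ * L * (j * M ^ (ε / 40)) := by ring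
          _ ≤ _ := mul_le_mul_of_nonneg_left h4 (by positivity)
      have h5 : 2 * (j : ℝ) * KK L D ≤ 2 * A * L * Z := by
        calc 2 * (j : ℝ) * KK L D ≤ 2 * (M ^ (1 - ε / 10)) * (A * L * M ^ (ε / 40)) := by
              refine mul_le_mul (by linarith) hK (KK_nonneg _ _) (by positivity)
          _ = 2 * A * L * (M ^ (1 - ε / 10) * M ^ (ε / 40)) := by ring
          _ = _ := by rw [hZM]
      have h6 : 0 ≤ A * L * Z := by positivity
      have h7 : 0 ≤ C₁ * L * Z := by positivity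
      rw [hB]
      nlinarith
    · have hM1' : 1 ≤ M ^ (1 - ε / 10) := Real.one_le_rpow hM1 (by linarith)
      have hj2 : 2 ≤ j := by
        have : (1 : ℝ) < j := lt_of_le_of_lt hM1' hj
        exact_mod_cast this
      refine (hTN j hj2 hjM hj.le lam hlam).trans ?_
      have h2 : (j : ℝ) ^ (1 - 9 * ε / 10 / 10) ≤ Z :=
        (Real.rpow_le_rpow (by positivity) hjM (by linarith)).trans hZ2
      have h3 : C₁ * L * (j : ℝ) ^ (1 - 9 * ε / 10 / 10) ≤ C₁ * L * Z := mul_le_mul_of_nonneg_left h2 (by positivity)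
      have h6 : 0 ≤ A * L * Z := by positivity
      have h7 : 0 ≤ C₀ * L * Z := by positivity
      rw [hB]
      nlinarith
  -- Stirling
  obtain ⟨S, hS⟩ : ∃ S, S = N * Real.log N - ∑ j ∈ Ico 1 N, gl j * j - M * (Real.log M - 1) := ⟨_, rfl⟩
  have hlN : Real.log N ≤ Real.log M := Real.log_le_log (by linarith) hNM
  have hS1 : |S| ≤ 4 * Real.log M := by
    obtain ⟨g1, g2⟩ := gl_st (show 1 ≤ N by omega)
    have g3 := abs_le.1 (f_diff hN1r hNM hMN)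
    have g4 : 0 ≤ Real.log N := Real.log_nonneg hN1r
    rw [hS, abs_le]
    constructor <;> nlinarith [g3.1, g3.2]
  -- the identity
  have hid : ∀ (a : ZI) (l : ℤ), nml M a l - 4 * M * (Real.log M - 1) * (kap l a / nz a) =
      2 * Real.log N * (nm (N : ℝ) a l - 2 * N * (kap l a / nz a)) -
      2 * ∑ j ∈ Ico 1 N, gl j * (nm (j : ℝ) a l - 2 * j * (kap l a / nz a)) + 4 * S * (kap l a / nz a) := by
    intro a l
    rw [nml_eq hM1, ← hN]
    have e1 : ∑ j ∈ Ico 1 N, gl j * (nm (j : ℝ) a l - 2 * j * (kap l a / nz a)) =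
        ∑ j ∈ Ico 1 N, gl j * nm (j : ℝ) a l - 2 * (kap l a / nz a) * ∑ j ∈ Ico 1 N, gl j * j := by
      rw [Finset.mul_sum, ← Finset.sum_sub_distrib]
      refine Finset.sum_congr rfl fun j _ => ?_
      ring
    rw [e1, hS]
    ring
  have hsum : ∑ a ∈ bl D, |∑ l ∈ Icc 1 ⌊L⌋, lam l * (nml M a l - 4 * M * (Real.log M - 1) * (kap l a / nz a))| ≤
      2 * Real.log N * EE (N : ℝ) L D lam + 2 * ∑ j ∈ Ico 1 N, gl j * EE (j : ℝ) L D lam + 4 * |S| * KK L D := by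
    have e1 : ∀ a : ZI, ∑ l ∈ Icc 1 ⌊L⌋, lam l * (nml M a l - 4 * M * (Real.log M - 1) * (kap l a / nz a)) =
        2 * Real.log N * (∑ l ∈ Icc 1 ⌊L⌋, lam l * (nm (N : ℝ) a l - 2 * N * (kap l a / nz a))) -
        2 * ∑ j ∈ Ico 1 N, gl j * (∑ l ∈ Icc 1 ⌊L⌋, lam l * (nm (j : ℝ) a l - 2 * j * (kap l a / nz a))) +
        4 * S * (∑ l ∈ Icc 1 ⌊L⌋, lam l * (kap l a / nz a)) := by
      intro a
      rw [Finset.sum_congr rfl (fun l _ => by rw [hid a l])]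
      have e2 : ∑ j ∈ Ico 1 N, gl j * (∑ l ∈ Icc 1 ⌊L⌋, lam l * (nm (j : ℝ) a l - 2 * j * (kap l a / nz a))) =
          ∑ l ∈ Icc 1 ⌊L⌋, lam l * ∑ j ∈ Ico 1 N, gl j * (nm (j : ℝ) a l - 2 * j * (kap l a / nz a)) := by
        rw [Finset.sum_congr rfl (fun j _ => Finset.mul_sum _ _ _), Finset.sum_comm]
        refine Finset.sum_congr rfl fun l _ => ?_
        rw [Finset.mul_sum]
        refine Finset.sum_congr rfl fun j _ => ?_
        ring
      rw [e2, Finset.mul_sum, Finset.mul_sum, Finset.mul_sum, ← Finset.sum_sub_distrib, ← Finset.sum_add_distrib]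
      refine Finset.sum_congr rfl fun l _ => ?_
      ring
    have e3 : ∀ a ∈ bl D, |∑ l ∈ Icc 1 ⌊L⌋, lam l * (nml M a l - 4 * M * (Real.log M - 1) * (kap l a / nz a))| ≤
        2 * Real.log N * |∑ l ∈ Icc 1 ⌊L⌋, lam l * (nm (N : ℝ) a l - 2 * N * (kap l a / nz a))| +
        2 * ∑ j ∈ Ico 1 N, gl j * |∑ l ∈ Icc 1 ⌊L⌋, lam l * (nm (j : ℝ) a l - 2 * j * (kap l a / nz a))| +
        4 * |S| * ∑ l ∈ Icc 1 ⌊L⌋, kap l a / nz a := by
      intro a _
      rw [e1 a]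
      have g1 := abs_add_le (2 * Real.log N * (∑ l ∈ Icc 1 ⌊L⌋, lam l * (nm (N : ℝ) a l - 2 * N * (kap l a / nz a))) -
        2 * ∑ j ∈ Ico 1 N, gl j * (∑ l ∈ Icc 1 ⌊L⌋, lam l * (nm (j : ℝ) a l - 2 * j * (kap l a / nz a))))
        (4 * S * (∑ l ∈ Icc 1 ⌊L⌋, lam l * (kap l a / nz a)))
      have g2 := abs_sub (2 * Real.log N * (∑ l ∈ Icc 1 ⌊L⌋, lam l * (nm (N : ℝ) a l - 2 * N * (kap l a / nz a))))
        (2 * ∑ j ∈ Ico 1 N, gl j * (∑ l ∈ Icc 1 ⌊L⌋, lam l * (nm (j : ℝ) a l - 2 * j * (kap l a / nz a))))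
      have g3 : |2 * Real.log N * (∑ l ∈ Icc 1 ⌊L⌋, lam l * (nm (N : ℝ) a l - 2 * N * (kap l a / nz a)))| =
          2 * Real.log N * |∑ l ∈ Icc 1 ⌊L⌋, lam l * (nm (N : ℝ) a l - 2 * N * (kap l a / nz a))| := by
        rw [abs_mul, abs_of_nonneg (mul_nonneg (by norm_num) (Real.log_nonneg hN1r))]
      have g4 : |2 * ∑ j ∈ Ico 1 N, gl j * (∑ l ∈ Icc 1 ⌊L⌋, lam l * (nm (j : ℝ) a l - 2 * j * (kap l a / nz a)))| ≤
          2 * ∑ j ∈ Ico 1 N, gl j * |∑ l ∈ Icc 1 ⌊L⌋, lam l * (nm (j : ℝ) a l - 2 * j * (kap l a / nz a))| := by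
        rw [abs_mul, abs_of_pos (by norm_num : (0 : ℝ) < 2)]
        refine mul_le_mul_of_nonneg_left ((Finset.abs_sum_le_sum_abs _ _).trans (le_of_eq ?_)) (by norm_num)
        refine Finset.sum_congr rfl fun j hj => ?_
        rw [abs_mul, abs_of_nonneg (gl_nonneg (mem_Ico.1 hj).1)]
      have g5 : |4 * S * (∑ l ∈ Icc 1 ⌊L⌋, lam l * (kap l a / nz a))| ≤ 4 * |S| * ∑ l ∈ Icc 1 ⌊L⌋, kap l a / nz a := by
        rw [abs_mul, abs_mul, abs_of_pos (by norm_num : (0 : ℝ) < 4)]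
        refine mul_le_mul_of_nonneg_left ((Finset.abs_sum_le_sum_abs _ _).trans (Finset.sum_le_sum fun l _ => ?_))
          (by positivity)
        rw [abs_mul, abs_of_nonneg (kq_nonneg l a)]
        exact mul_le_of_le_one_left (kq_nonneg l a) (hlam.1 l)
      linarith
    refine (Finset.sum_le_sum e3).trans (le_of_eq ?_)
    rw [Finset.sum_add_distrib, Finset.sum_add_distrib, ← Finset.mul_sum, ← Finset.mul_sum, ← Finset.mul_sum]
    unfold EE KK
    congr 2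
    congr 1
    rw [Finset.sum_comm]
    refine Finset.sum_congr rfl fun j _ => ?_
    rw [Finset.mul_sum]
  refine hsum.trans ?_
  have k1 : 2 * Real.log N * EE (N : ℝ) L D lam ≤ 2 * Real.log M * B :=
    mul_le_mul (by linarith) (hEj N (by omega) hNM) (EE_nonneg _ _ _ _) (by positivity)
  have k2 : ∑ j ∈ Ico 1 N, gl j * EE (j : ℝ) L D lam ≤ Real.log M * B := by
    calc ∑ j ∈ Ico 1 N, gl j * EE (j : ℝ) L D lam ≤ ∑ j ∈ Ico 1 N, gl j * B := by
          refine Finset.sum_le_sum fun j hj => ?_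
          rw [mem_Ico] at hj
          refine mul_le_mul_of_nonneg_left (hEj j hj.1 ?_) (gl_nonneg hj.1)
          have : (j : ℝ) ≤ N := by exact_mod_cast hj.2.le
          linarith
      _ = Real.log N * B := by
          rw [← Finset.sum_mul, gl_sum (by omega)]
          simp
      _ ≤ _ := mul_le_mul_of_nonneg_right hlN hB0.le
  have k3 : 4 * |S| * KK L D ≤ 16 * Real.log M * (A * L * Z) := by
    refine mul_le_mul (by linarith) (hK.trans ?_) (KK_nonneg _ _) (by positivity)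
    exact mul_le_mul_of_nonneg_left hZ3 (by positivity)
  have k4 : Real.log M * Z ≤ C₂ * M ^ (1 - ε / 20) := by
    calc Real.log M * Z ≤ (C₂ * M ^ (ε / 100)) * Z := mul_le_mul_of_nonneg_right (hlogb M hM) hZ0.le
      _ = C₂ * (M ^ (ε / 100) * Z) := by ring
      _ ≤ C₂ * M ^ (1 - ε / 20) := by
          refine mul_le_mul_of_nonneg_left ?_ hC₂0.le
          rw [hZ, ← Real.rpow_add hM0]
          exact Real.rpow_le_rpow_of_exponent_le hM1 (by linarith)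
  calc _ ≤ 2 * Real.log M * B + 2 * (Real.log M * B) + 16 * Real.log M * (A * L * Z) := by linarith
    _ = (4 * (3 * A + 6 * C₀ + C₁) + 16 * A) * L * (Real.log M * Z) := by rw [hB]; ring
    _ ≤ (4 * (3 * A + 6 * C₀ + C₁) + 16 * A) * L * (C₂ * M ^ (1 - ε / 20)) :=
        mul_le_mul_of_nonneg_left k4 (by positivity)
    _ = _ := by ring

end Pool.Agent.N407.GN
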