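import Pool.Agent.N782.GN.StmX
import Pool.Agent.N407.GN.Til

/-!
# Project GN (helper782), TILX: linear sums in a class with a logarithmic weight (helper407)
-/

set_option autoImplicit false

namespace Pool.Agent.N407.GN

open Finset
open Pool.Agent.N782.GN

open Classical in
/-- the elements of `[-N, N]` in the class with `a ∣ l + i m` -/
noncomputable def sAx (q0 : ℕ) (m0 : ℤ) (N : ℕ) (a : ZI) (l : ℤ) : Finset ℤ :=
  (Icc (-(N : ℤ)) N).filter (fun m : ℤ => (q0 : ℤ) ∣ m - m0 ∧ a ∣ (⟨l, m⟩ : ZI))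

theorem nmx_nat (q0 : ℕ) (m0 : ℤ) (N : ℕ) (a : ZI) (l : ℤ) :
    nmx q0 m0 (N : ℝ) a l = ((sAx q0 m0 N a l).card : ℝ) := by
  classical
  unfold nmx sAx
  have h1 : ⌈-(N : ℝ)⌉ = -(N : ℤ) := by
    rw [Int.ceil_neg, Int.floor_natCast]
  rw [h1, Int.floor_natCast]

theorem nmlx_eq (q0 : ℕ) (m0 : ℤ) {M : ℝ} (hM : 1 ≤ M) (a : ZI) (l : ℤ) :
    nmlx q0 m0 M a l = 2 * Real.log (⌊M⌋₊ : ℝ) * nmx q0 m0 (⌊M⌋₊ : ℝ) a l -
      2 * ∑ j ∈ Ico 1 ⌊M⌋₊, gl j * nmx q0 m0 (j : ℝ) a l := by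
  classical
  have hN : 1 ≤ ⌊M⌋₊ := Nat.le_floor (by exact_mod_cast hM)
  have h1 : nmlx q0 m0 M a l = ∑ m ∈ sAx q0 m0 ⌊M⌋₊ a l, 2 * Real.log |(m : ℝ)| := by
    unfold nmlx sAx
    rw [(floor_neg (by linarith : (0 : ℝ) ≤ M)).1, (floor_neg (by linarith : (0 : ℝ) ≤ M)).2, Finset.sum_filter,
      Finset.sum_filter]
    refine Finset.sum_congr rfl fun m _ => ?_
    by_cases hm : m = 0
    · rw [hm]
      simp
    · by_cases h : (q0 : ℤ) ∣ m - m0 ∧ a ∣ (⟨l, m⟩ : ZI)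
      · rw [if_pos ⟨h.1, hm, h.2⟩, if_pos h]
      · rw [if_neg (fun h' => h ⟨h'.1, h'.2.2⟩), if_neg h]
  have h2 : ∀ m ∈ sAx q0 m0 ⌊M⌋₊ a l, m.natAbs ≤ ⌊M⌋₊ := by
    intro m hm
    unfold sAx at hm
    rw [mem_filter, mem_Icc] at hm
    omega
  have h3 : ∀ j ∈ Ico 1 ⌊M⌋₊, nmx q0 m0 (j : ℝ) a l =
      ∑ m ∈ sAx q0 m0 ⌊M⌋₊ a l, (if m.natAbs ≤ j then (1 : ℝ) else 0) := by
    intro j hj
    rw [mem_Ico] at hj
    rw [nmx_nat, ← Finset.sum_filter, Finset.sum_const, nsmul_eq_mul, mul_one]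
    congr 2
    unfold sAx
    rw [Finset.filter_filter]
    ext m
    rw [mem_filter, mem_filter, mem_Icc, mem_Icc]
    constructor
    · rintro ⟨h4, h5⟩
      exact ⟨by omega, h5, by omega⟩
    · rintro ⟨h4, h5, h6⟩
      exact ⟨by omega, h5⟩
  have h4 : ∑ m ∈ sAx q0 m0 ⌊M⌋₊ a l, 2 * Real.log |(m : ℝ)| =
      ∑ m ∈ sAx q0 m0 ⌊M⌋₊ a l, (2 * Real.log (⌊M⌋₊ : ℝ) -
      ∑ j ∈ Ico 1 ⌊M⌋₊, 2 * (if m.natAbs ≤ j then gl j else 0)) := by
    refine Finset.sum_congr rfl fun m hm => ?_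
    rw [log_abel hN (h2 m hm), ← Finset.mul_sum]
    ring
  have h5 : 2 * ∑ j ∈ Ico 1 ⌊M⌋₊, gl j * nmx q0 m0 (j : ℝ) a l =
      ∑ j ∈ Ico 1 ⌊M⌋₊, ∑ m ∈ sAx q0 m0 ⌊M⌋₊ a l, 2 * (if m.natAbs ≤ j then gl j else 0) := by
    rw [Finset.mul_sum]
    refine Finset.sum_congr rfl fun j hj => ?_
    rw [h3 j hj, Finset.mul_sum, Finset.mul_sum]
    refine Finset.sum_congr rfl fun m _ => ?_
    split_ifs <;> ring
  rw [h1, h4, h5, Finset.sum_sub_distrib, Finset.sum_const, nsmul_eq_mul, nmx_nat]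
  congr 1
  · ring
  · exact Finset.sum_comm

open Classical in
/-- the numbers coprime to `q₀` -/
noncomputable def blc (q0 : ℕ) (D : ℝ) : Finset ZI := (bl D).filter (fun a => IsCoprime a ((q0 : ℕ) : ZI))

theorem blc_sub (q0 : ℕ) (D : ℝ) : blc q0 D ⊆ bl D := by
  classical
  exact Finset.filter_subset _ _

/-- the error of the linear sums -/
noncomputable def EEx (q0 : ℕ) (m0 : ℤ) (M L D : ℝ) (lam : ℤ → ℝ) : ℝ :=
  ∑ a ∈ blc q0 D, |∑ l ∈ Icc 1 ⌊L⌋, lam l * (nmx q0 m0 M a l - 2 * M / q0 * (kap l a / nz a))|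

/-- the sum of the densities -/
noncomputable def KKx (q0 : ℕ) (L D : ℝ) : ℝ := ∑ a ∈ blc q0 D, ∑ l ∈ Icc 1 ⌊L⌋, kap l a / nz a

theorem KKx_nonneg (q0 : ℕ) (L D : ℝ) : 0 ≤ KKx q0 L D :=
  Finset.sum_nonneg fun a _ => Finset.sum_nonneg fun l _ => kq_nonneg l a

theorem EEx_nonneg (q0 : ℕ) (m0 : ℤ) (M L D : ℝ) (lam : ℤ → ℝ) : 0 ≤ EEx q0 m0 M L D lam :=
  Finset.sum_nonneg fun _ _ => abs_nonneg _

theorem nmx_nonneg (q0 : ℕ) (m0 : ℤ) (M : ℝ) (a : ZI) (l : ℤ) : 0 ≤ nmx q0 m0 M a l := by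
  unfold nmx
  exact Nat.cast_nonneg _

theorem nmx_le (q0 : ℕ) (m0 : ℤ) (M : ℝ) (a : ZI) (l : ℤ) : nmx q0 m0 M a l ≤ nm M a l := by
  classical
  unfold nmx nm
  have : ((Icc ⌈-M⌉ ⌊M⌋).filter (fun m : ℤ => (q0 : ℤ) ∣ m - m0 ∧ a ∣ (⟨l, m⟩ : ZI))).card ≤
      ((Icc ⌈-M⌉ ⌊M⌋).filter (fun m : ℤ => a ∣ (⟨l, m⟩ : ZI))).card := by
    refine Finset.card_le_card fun m hm => ?_
    rw [mem_filter] at hm ⊢
    exact ⟨hm.1, hm.2.2⟩
  exact_mod_cast this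

theorem nmx_sum (q0 : ℕ) (m0 : ℤ) (M L D : ℝ) :
    ∑ a ∈ blc q0 D, ∑ l ∈ Icc 1 ⌊L⌋, nmx q0 m0 M a l ≤ ∑ a ∈ bl D, ∑ l ∈ Icc 1 ⌊L⌋, nm M a l := by
  refine (Finset.sum_le_sum fun a _ => Finset.sum_le_sum fun l _ => nmx_le q0 m0 M a l).trans ?_
  exact Finset.sum_le_sum_of_subset_of_nonneg (blc_sub q0 D)
    (fun a _ _ => Finset.sum_nonneg fun l _ => nm_nonneg M a l)

/-- trivial bound -/
theorem EEx_triv {q0 : ℕ} (hq : 1 ≤ q0) {m0 : ℤ} {M L D : ℝ} {lam : ℤ → ℝ} (hM : 0 ≤ M) (hlam : Lm L lam) :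
    EEx q0 m0 M L D lam ≤ ∑ a ∈ bl D, ∑ l ∈ Icc 1 ⌊L⌋, nm M a l + 2 * M * KKx q0 L D := by
  refine le_trans ?_ (add_le_add_left (nmx_sum q0 m0 M L D) _)
  unfold EEx KKx
  rw [Finset.mul_sum, ← Finset.sum_add_distrib]
  refine Finset.sum_le_sum fun a _ => ?_
  rw [Finset.mul_sum, ← Finset.sum_add_distrib]
  refine (Finset.abs_sum_le_sum_abs _ _).trans (Finset.sum_le_sum fun l _ => ?_)
  rw [abs_mul]
  have h1 := kq_nonneg l a
  have h2 := nmx_nonneg q0 m0 M a l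
  have hq1 : (1 : ℝ) ≤ q0 := by exact_mod_cast hq
  have h5 : 2 * M / q0 ≤ 2 * M := div_le_self (by linarith) hq1
  have h3 : |nmx q0 m0 M a l - 2 * M / q0 * (kap l a / nz a)| ≤ nmx q0 m0 M a l + 2 * M * (kap l a / nz a) := by
    have h4 : 0 ≤ 2 * M / q0 * (kap l a / nz a) := by positivity
    have h6 : 2 * M / q0 * (kap l a / nz a) ≤ 2 * M * (kap l a / nz a) := mul_le_mul_of_nonneg_right h5 h1
    rw [abs_le]
    constructor <;> linarith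
  calc |lam l| * _ ≤ 1 * _ := mul_le_mul_of_nonneg_right (hlam.1 l) (abs_nonneg _)
    _ ≤ _ := by rw [one_mul]; exact h3

/-- the sum of the densities, from TIX -/
theorem KKx_le {q0 : ℕ} (hq : 1 ≤ q0) {m0 : ℤ} {C L D M T B : ℝ} (hM : 0 < M)
    (h1 : ∀ lam : ℤ → ℝ, Lm L lam → EEx q0 m0 M L D lam ≤ T)
    (h2 : ∑ a ∈ bl D, ∑ l ∈ Icc 1 ⌊L⌋, nm M a l ≤ B) (hC : C = q0 * ((T + B) / (2 * M))) : KKx q0 L D ≤ C := by
  classical
  have hq0 : (0 : ℝ) < q0 := by exact_mod_cast hq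
  rw [hC, ← mul_div_assoc, le_div_iff₀ (by positivity)]
  have h3 := h1 (fun l => if 1 ≤ l ∧ (l : ℝ) ≤ L then 1 else 0) ⟨fun l => by
    show |(if 1 ≤ l ∧ (l : ℝ) ≤ L then (1 : ℝ) else 0)| ≤ 1
    split_ifs <;> simp, fun l hl => by
    show (if 1 ≤ l ∧ (l : ℝ) ≤ L then (1 : ℝ) else 0) = 0
    rw [if_neg]
    rintro ⟨h4, h5⟩
    rcases hl with hl | hl
    · omega
    · linarith⟩
  have h6 := nmx_sum q0 m0 M L D
  have h4 : KKx q0 L D * (2 * M / q0) - ∑ a ∈ blc q0 D, ∑ l ∈ Icc 1 ⌊L⌋, nmx q0 m0 M a l ≤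
      EEx q0 m0 M L D (fun l => if 1 ≤ l ∧ (l : ℝ) ≤ L then 1 else 0) := by
    unfold EEx KKx
    rw [Finset.sum_mul, ← Finset.sum_sub_distrib]
    refine Finset.sum_le_sum fun a _ => ?_
    have h5 : ∑ l ∈ Icc 1 ⌊L⌋, (if 1 ≤ l ∧ (l : ℝ) ≤ L then (1 : ℝ) else 0) *
        (nmx q0 m0 M a l - 2 * M / q0 * (kap l a / nz a)) =
        ∑ l ∈ Icc 1 ⌊L⌋, (nmx q0 m0 M a l - 2 * M / q0 * (kap l a / nz a)) := by
      refine Finset.sum_congr rfl fun l hl => ?_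
      rw [mem_Icc] at hl
      rw [if_pos ⟨hl.1, Int.le_floor.1 hl.2⟩, one_mul]
    rw [h5]
    refine le_trans (le_of_eq ?_) (neg_le_abs _)
    rw [Finset.sum_sub_distrib, ← Finset.mul_sum]
    ring
  have h7 : KKx q0 L D * (2 * M / q0) ≤ T + B := by linarith
  calc KKx q0 L D * (2 * M) = q0 * (KKx q0 L D * (2 * M / q0)) := by field_simp
    _ ≤ q0 * (T + B) := mul_le_mul_of_nonneg_left h7 hq0.le

/-- (TILX) linear sums in a class with a logarithmic weight -/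
theorem tilx (h0 : S_DVB) (h1 : S_TIX) : S_TILX := by
  classical
  intro ε q0 hε hq
  have hqr : (1 : ℝ) ≤ q0 := by exact_mod_cast hq
  have hqr0 : (0 : ℝ) < q0 := by linarith
  rcases lt_or_ge 1 ε with hε1 | hε1
  · refine ⟨1, one_pos, fun M L D m0 lam hM hL hLM _ _ _ => ?_⟩
    exfalso
    have : M ^ (1 - ε) < 1 := Real.rpow_lt_one_of_one_lt_of_neg (by linarith) (by linarith)
    linarith
  obtain ⟨C₀, hC₀, h0'⟩ := h0 (ε / 80) (by linarith)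
  obtain ⟨C₁, hC₁, h1'⟩ := h1 (9 * ε / 10) q0 (by linarith) hq
  -- the logarithm
  obtain ⟨C₂, hC₂⟩ : ∃ C₂, C₂ = 100 / ε := ⟨_, rfl⟩
  have hC₂0 : 0 < C₂ := by rw [hC₂]; positivity
  have hlogb : ∀ M : ℝ, 2 ≤ M → Real.log M ≤ C₂ * M ^ (ε / 100) := by
    intro M hM
    have := Real.log_le_rpow_div (show (0 : ℝ) ≤ M by linarith) (show (0 : ℝ) < ε / 100 by linarith)
    refine this.trans (le_of_eq ?_)
    rw [hC₂]
    field_simp
  -- constants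
  obtain ⟨A, hA⟩ : ∃ A, A = q0 * (C₁ + 6 * C₀) := ⟨_, rfl⟩
  have hA0 : 0 < A := by rw [hA]; positivity
  refine ⟨(4 * (3 * A + 6 * C₀ + C₁) + 16 * A) * C₂, by positivity, fun M L D m0 lam hM hL hLM hD hDM hlam => ?_⟩
  have hM0 : 0 < M := by linarith
  have hM1 : 1 ≤ M := by linarith
  have hL0 : 0 < L := by linarith
  have hLM' : L ≤ M := hLM.trans (by
    calc M ^ (1 - ε) ≤ M ^ (1 : ℝ) := Real.rpow_le_rpow_of_exponent_le hM1 (by linarith)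
      _ = M := Real.rpow_one M)
  obtain ⟨N, hN⟩ : ∃ N : ℕ, N = ⌊M⌋₊ := ⟨_, rfl⟩
  have hN2 : 2 ≤ N := by rw [hN]; exact Nat.le_floor (by exact_mod_cast hM)
  have hNM : (N : ℝ) ≤ M := by rw [hN]; exact Nat.floor_le hM0.le
  have hMN : M ≤ N + 1 := by rw [hN]; exact (Nat.lt_floor_add_one M).le
  have hN1r : (1 : ℝ) ≤ N := by exact_mod_cast (by omega : 1 ≤ N)
  have hl2 := Real.log_two_gt_d9
  have hlM2 : Real.log 2 ≤ Real.log M := Real.log_le_log (by norm_num) hM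
  have hlM : 0 < Real.log M := by linarith
  -- powers
  obtain ⟨Z, hZ⟩ : ∃ Z, Z = M ^ (1 - 3 * ε / 40) := ⟨_, rfl⟩
  have hZ0 : 0 < Z := by rw [hZ]; exact Real.rpow_pos_of_pos hM0 _
  have hpow2 : (2 * M ^ 2) ^ (ε / 80) ≤ 2 * M ^ (ε / 40) := by
    rw [Real.mul_rpow (by norm_num) (by positivity)]
    refine mul_le_mul ?_ (le_of_eq ?_) (by positivity) (by norm_num)
    · calc (2 : ℝ) ^ (ε / 80) ≤ 2 ^ (1 : ℝ) := Real.rpow_le_rpow_of_exponent_le (by norm_num) (by linarith)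
        _ = 2 := Real.rpow_one 2
    · rw [← Real.rpow_natCast, ← Real.rpow_mul hM0.le]
      congr 1
      push_cast
      ring
  have hZM : M ^ (1 - ε / 10) * M ^ (ε / 40) = Z := by
    rw [hZ, ← Real.rpow_add hM0]
    congr 1
    ring
  have hZ2 : M ^ (1 - 9 * ε / 10 / 10) ≤ Z := by
    rw [hZ]
    exact Real.rpow_le_rpow_of_exponent_le hM1 (by linarith)
  have hZ3 : M ^ (ε / 40) ≤ Z := by
    rw [hZ]
    exact Real.rpow_le_rpow_of_exponent_le hM1 (by linarith)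
  -- sum of the densities
  have hTN : ∀ j : ℕ, 2 ≤ j → (j : ℝ) ≤ M → M ^ (1 - ε / 10) ≤ j → ∀ lam : ℤ → ℝ, Lm L lam →
      EEx q0 m0 (j : ℝ) L D lam ≤ C₁ * L * (j : ℝ) ^ (1 - 9 * ε / 10 / 10) := by
    intro j hj2 hjM hj lam hlam
    have hj0 : (0 : ℝ) < j := by positivity
    have hkey : M ^ (1 - ε) ≤ (j : ℝ) ^ (1 - 9 * ε / 10) := by
      calc M ^ (1 - ε) ≤ M ^ ((1 - ε / 10) * (1 - 9 * ε / 10)) :=
            Real.rpow_le_rpow_of_exponent_le hM1 (by nlinarith)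
        _ = (M ^ (1 - ε / 10)) ^ (1 - 9 * ε / 10) := Real.rpow_mul hM0.le _ _
        _ ≤ (j : ℝ) ^ (1 - 9 * ε / 10) := Real.rpow_le_rpow (by positivity) hj (by linarith)
    exact h1' j L D m0 lam (by exact_mod_cast hj2) hL (hLM.trans hkey) hD
      (hDM.trans (mul_le_mul_of_nonneg_left hkey hL0.le)) hlam
  have hnmj : ∀ j : ℕ, 1 ≤ j → (j : ℝ) ≤ M → ∑ a ∈ bl D, ∑ l ∈ Icc 1 ⌊L⌋, nm (j : ℝ) a l ≤
      6 * C₀ * L * j * M ^ (ε / 40) := by
    intro j hj1 hjM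
    refine (nm_sum h0' (by linarith) hC₀ hM1 hL hLM' j hjM).trans ?_
    have hj1' : (1 : ℝ) ≤ j := by exact_mod_cast hj1
    calc L * (2 * j + 1) * (C₀ * (2 * M ^ 2) ^ (ε / 80)) ≤ L * (3 * j) * (C₀ * (2 * M ^ (ε / 40))) := by
          refine mul_le_mul (mul_le_mul_of_nonneg_left (by linarith) hL0.le)
            (mul_le_mul_of_nonneg_left hpow2 hC₀.le) (by positivity) (by positivity)
      _ = _ := by ring
  have hK : KKx q0 L D ≤ A * L * M ^ (ε / 40) := by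
    have hK1 := KKx_le hq (m0 := m0) (C := _) (L := L) (D := D) (M := M) (T := C₁ * L * M) (B := L * (2 * M + 1) * (C₀ * (2 * M ^ 2) ^ (ε / 80)))
      hM0 ?_ ?_ rfl
    · refine hK1.trans ?_
      rw [hA, show (q0 : ℝ) * (C₁ + 6 * C₀) * L * M ^ (ε / 40) = q0 * ((C₁ + 6 * C₀) * L * M ^ (ε / 40)) by ring]
      refine mul_le_mul_of_nonneg_left ?_ hqr0.le
      rw [div_le_iff₀ (by positivity)]
      have h3 : 1 ≤ M ^ (ε / 40) := Real.one_le_rpow hM1 (by linarith)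
      have h4 : L * (2 * M + 1) * (C₀ * (2 * M ^ 2) ^ (ε / 80)) ≤ L * (3 * M) * (C₀ * (2 * M ^ (ε / 40))) := by
        refine mul_le_mul (mul_le_mul_of_nonneg_left (by linarith) hL0.le)
            (mul_le_mul_of_nonneg_left hpow2 hC₀.le) (by positivity) (by positivity)
      have h5 : C₁ * L * M ≤ C₁ * L * M * M ^ (ε / 40) := le_mul_of_one_le_right (by positivity) h3
      have h6 : 0 ≤ C₁ * L * M * M ^ (ε / 40) := by positivity
      have h7 : 0 ≤ C₀ * L * M * M ^ (ε / 40) := by positivity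
      nlinarith
    · intro lam hlam
      have := h1' M L D m0 lam hM hL (hLM.trans (Real.rpow_le_rpow_of_exponent_le hM1 (by linarith))) hD
        (hDM.trans (mul_le_mul_of_nonneg_left (Real.rpow_le_rpow_of_exponent_le hM1 (by linarith)) hL0.le)) hlam
      refine this.trans (mul_le_mul_of_nonneg_left ?_ (by positivity))
      calc M ^ (1 - 9 * ε / 10 / 10) ≤ M ^ (1 : ℝ) := Real.rpow_le_rpow_of_exponent_le hM1 (by linarith)
        _ = M := Real.rpow_one M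
    · -- `nm` at a real `M`
      have e1 : ∀ (a : ZI) (l : ℤ), nm M a l = nm ((N : ℕ) : ℝ) a l := by
        intro a l
        unfold nm
        rw [(floor_neg hM0.le).1, (floor_neg hM0.le).2, ← hN,
          show ⌈-((N : ℕ) : ℝ)⌉ = -(N : ℤ) by rw [Int.ceil_neg, Int.floor_natCast], Int.floor_natCast]
      simp only [e1]
      refine (nm_sum h0' (by linarith) hC₀ hM1 hL hLM' N hNM).trans ?_
      refine mul_le_mul_of_nonneg_right (mul_le_mul_of_nonneg_left (by linarith) hL0.le) (by positivity)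
  -- the error at all `j`
  obtain ⟨B, hB⟩ : ∃ B, B = (3 * A + 6 * C₀ + C₁) * L * Z := ⟨_, rfl⟩
  have hB0 : 0 < B := by rw [hB]; positivity
  have hEj : ∀ j : ℕ, 1 ≤ j → (j : ℝ) ≤ M → EEx q0 m0 (j : ℝ) L D lam ≤ B := by
    intro j hj1 hjM
    have hj1' : (1 : ℝ) ≤ j := by exact_mod_cast hj1
    rcases le_or_gt (j : ℝ) (M ^ (1 - ε / 10)) with hj | hj
    · refine (EEx_triv hq (by linarith) hlam).trans ?_
      have h2 := hnmj j hj1 hjM
      have h3 : 6 * C₀ * L * j * M ^ (ε / 40) ≤ 6 * C₀ * L * Z := by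
        rw [← hZM]
        have h4 : (j : ℝ) * M ^ (ε / 40) ≤ M ^ (1 - ε / 10) * M ^ (ε / 40) :=
          mul_le_mul_of_nonneg_right hj (by positivity)
        calc 6 * C₀ * L * j * M ^ (ε / 40) = 6 * C₀ * L * (j * M ^ (ε / 40)) := by ring
          _ ≤ _ := mul_le_mul_of_nonneg_left h4 (by positivity)
      have h5 : 2 * (j : ℝ) * KKx q0 L D ≤ 2 * A * L * Z := by
        calc 2 * (j : ℝ) * KKx q0 L D ≤ 2 * (M ^ (1 - ε / 10)) * (A * L * M ^ (ε / 40)) := by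
              refine mul_le_mul (by linarith) hK (KKx_nonneg _ _ _) (by positivity)
          _ = 2 * A * L * (M ^ (1 - ε / 10) * M ^ (ε / 40)) := by ring
          _ = _ := by rw [hZM]
      have h6 : 0 ≤ A * L * Z := by positivity
      have h7 : 0 ≤ C₁ * L * Z := by positivity
      rw [hB]
      nlinarith
    · have hM1' : 1 ≤ M ^ (1 - ε / 10) := Real.one_le_rpow hM1 (by linarith)
      have hj2 : 2 ≤ j := by
        have : (1 : ℝ) < j := lt_of_le_of_lt hM1' hj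
        exact_mod_cast this
      refine (hTN j hj2 hjM hj.le lam hlam).trans ?_
      have h2 : (j : ℝ) ^ (1 - 9 * ε / 10 / 10) ≤ Z :=
        (Real.rpow_le_rpow (by positivity) hjM (by linarith)).trans hZ2
      have h3 : C₁ * L * (j : ℝ) ^ (1 - 9 * ε / 10 / 10) ≤ C₁ * L * Z := mul_le_mul_of_nonneg_left h2 (by positivity)
      have h6 : 0 ≤ A * L * Z := by positivity
      have h7 : 0 ≤ C₀ * L * Z := by positivity
      rw [hB]
      nlinarith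
  -- Stirling
  obtain ⟨S, hS⟩ : ∃ S, S = N * Real.log N - ∑ j ∈ Ico 1 N, gl j * j - M * (Real.log M - 1) := ⟨_, rfl⟩
  have hlN : Real.log N ≤ Real.log M := Real.log_le_log (by linarith) hNM
  have hS1 : |S| ≤ 4 * Real.log M := by
    obtain ⟨g1, g2⟩ := gl_st (show 1 ≤ N by omega)
    have g3 := abs_le.1 (f_diff hN1r hNM hMN)
    have g4 : 0 ≤ Real.log N := Real.log_nonneg hN1r
    rw [hS, abs_le]
    constructor <;> nlinarith [g3.1, g3.2]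
  -- the identity
  have hid : ∀ (a : ZI) (l : ℤ), nmlx q0 m0 M a l - 4 * M * (Real.log M - 1) / q0 * (kap l a / nz a) =
      2 * Real.log N * (nmx q0 m0 (N : ℝ) a l - 2 * N / q0 * (kap l a / nz a)) -
      2 * ∑ j ∈ Ico 1 N, gl j * (nmx q0 m0 (j : ℝ) a l - 2 * j / q0 * (kap l a / nz a)) + 4 * S / q0 * (kap l a / nz a) := by
    intro a l
    rw [nmlx_eq q0 m0 hM1, ← hN]
    have e1 : ∑ j ∈ Ico 1 N, gl j * (nmx q0 m0 (j : ℝ) a l - 2 * j / q0 * (kap l a / nz a)) =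
        ∑ j ∈ Ico 1 N, gl j * nmx q0 m0 (j : ℝ) a l - 2 / q0 * (kap l a / nz a) * ∑ j ∈ Ico 1 N, gl j * j := by
      rw [Finset.mul_sum, ← Finset.sum_sub_distrib]
      refine Finset.sum_congr rfl fun j _ => ?_
      ring
    rw [e1, hS]
    ring
  have hsum : ∑ a ∈ blc q0 D, |∑ l ∈ Icc 1 ⌊L⌋, lam l * (nmlx q0 m0 M a l - 4 * M * (Real.log M - 1) / q0 * (kap l a / nz a))| ≤
      2 * Real.log N * EEx q0 m0 (N : ℝ) L D lam + 2 * ∑ j ∈ Ico 1 N, gl j * EEx q0 m0 (j : ℝ) L D lam + 4 * |S| * KKx q0 L D := by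
    have e1 : ∀ a : ZI, ∑ l ∈ Icc 1 ⌊L⌋, lam l * (nmlx q0 m0 M a l - 4 * M * (Real.log M - 1) / q0 * (kap l a / nz a)) =
        2 * Real.log N * (∑ l ∈ Icc 1 ⌊L⌋, lam l * (nmx q0 m0 (N : ℝ) a l - 2 * N / q0 * (kap l a / nz a))) -
        2 * ∑ j ∈ Ico 1 N, gl j * (∑ l ∈ Icc 1 ⌊L⌋, lam l * (nmx q0 m0 (j : ℝ) a l - 2 * j / q0 * (kap l a / nz a))) +
        4 * S / q0 * (∑ l ∈ Icc 1 ⌊L⌋, lam l * (kap l a / nz a)) := by
      intro a
      rw [Finset.sum_congr rfl (fun l _ => by rw [hid a l])]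
      have e2 : ∑ j ∈ Ico 1 N, gl j * (∑ l ∈ Icc 1 ⌊L⌋, lam l * (nmx q0 m0 (j : ℝ) a l - 2 * j / q0 * (kap l a / nz a))) =
          ∑ l ∈ Icc 1 ⌊L⌋, lam l * ∑ j ∈ Ico 1 N, gl j * (nmx q0 m0 (j : ℝ) a l - 2 * j / q0 * (kap l a / nz a)) := by
        rw [Finset.sum_congr rfl (fun j _ => Finset.mul_sum _ _ _), Finset.sum_comm]
        refine Finset.sum_congr rfl fun l _ => ?_
        rw [Finset.mul_sum]
        refine Finset.sum_congr rfl fun j _ => ?_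
        ring
      rw [e2, Finset.mul_sum, Finset.mul_sum, Finset.mul_sum, ← Finset.sum_sub_distrib, ← Finset.sum_add_distrib]
      refine Finset.sum_congr rfl fun l _ => ?_
      ring
    have e3 : ∀ a ∈ blc q0 D, |∑ l ∈ Icc 1 ⌊L⌋, lam l * (nmlx q0 m0 M a l - 4 * M * (Real.log M - 1) / q0 * (kap l a / nz a))| ≤
        2 * Real.log N * |∑ l ∈ Icc 1 ⌊L⌋, lam l * (nmx q0 m0 (N : ℝ) a l - 2 * N / q0 * (kap l a / nz a))| +
        2 * ∑ j ∈ Ico 1 N, gl j * |∑ l ∈ Icc 1 ⌊L⌋, lam l * (nmx q0 m0 (j : ℝ) a l - 2 * j / q0 * (kap l a / nz a))| +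
        4 * |S| * ∑ l ∈ Icc 1 ⌊L⌋, kap l a / nz a := by
      intro a _
      rw [e1 a]
      have g1 := abs_add_le (2 * Real.log N * (∑ l ∈ Icc 1 ⌊L⌋, lam l * (nmx q0 m0 (N : ℝ) a l - 2 * N / q0 * (kap l a / nz a))) -
        2 * ∑ j ∈ Ico 1 N, gl j * (∑ l ∈ Icc 1 ⌊L⌋, lam l * (nmx q0 m0 (j : ℝ) a l - 2 * j / q0 * (kap l a / nz a))))
        (4 * S / q0 * (∑ l ∈ Icc 1 ⌊L⌋, lam l * (kap l a / nz a)))
      have g2 := abs_sub (2 * Real.log N * (∑ l ∈ Icc 1 ⌊L⌋, lam l * (nmx q0 m0 (N : ℝ) a l - 2 * N / q0 * (kap l a / nz a))))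
        (2 * ∑ j ∈ Ico 1 N, gl j * (∑ l ∈ Icc 1 ⌊L⌋, lam l * (nmx q0 m0 (j : ℝ) a l - 2 * j / q0 * (kap l a / nz a))))
      have g3 : |2 * Real.log N * (∑ l ∈ Icc 1 ⌊L⌋, lam l * (nmx q0 m0 (N : ℝ) a l - 2 * N / q0 * (kap l a / nz a)))| =
          2 * Real.log N * |∑ l ∈ Icc 1 ⌊L⌋, lam l * (nmx q0 m0 (N : ℝ) a l - 2 * N / q0 * (kap l a / nz a))| := by
        rw [abs_mul, abs_of_nonneg (mul_nonneg (by norm_num) (Real.log_nonneg hN1r))]
      have g4 : |2 * ∑ j ∈ Ico 1 N, gl j * (∑ l ∈ Icc 1 ⌊L⌋, lam l * (nmx q0 m0 (j : ℝ) a l - 2 * j / q0 * (kap l a / nz a)))| ≤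
          2 * ∑ j ∈ Ico 1 N, gl j * |∑ l ∈ Icc 1 ⌊L⌋, lam l * (nmx q0 m0 (j : ℝ) a l - 2 * j / q0 * (kap l a / nz a))| := by
        rw [abs_mul, abs_of_pos (by norm_num : (0 : ℝ) < 2)]
        refine mul_le_mul_of_nonneg_left ((Finset.abs_sum_le_sum_abs _ _).trans (le_of_eq ?_)) (by norm_num)
        refine Finset.sum_congr rfl fun j hj => ?_
        rw [abs_mul, abs_of_nonneg (gl_nonneg (mem_Ico.1 hj).1)]
      have g5 : |4 * S / q0 * (∑ l ∈ Icc 1 ⌊L⌋, lam l * (kap l a / nz a))| ≤ 4 * |S| * ∑ l ∈ Icc 1 ⌊L⌋, kap l a / nz a := by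
        have g6 : |4 * S / q0| ≤ 4 * |S| := by
          rw [abs_div, abs_mul, abs_of_pos (by norm_num : (0 : ℝ) < 4), abs_of_pos hqr0]
          exact div_le_self (by positivity) hqr
        rw [abs_mul]
        refine mul_le_mul g6 ((Finset.abs_sum_le_sum_abs _ _).trans (Finset.sum_le_sum fun l _ => ?_))
          (abs_nonneg _) (by positivity)
        rw [abs_mul, abs_of_nonneg (kq_nonneg l a)]
        exact mul_le_of_le_one_left (kq_nonneg l a) (hlam.1 l)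
      linarith
    refine (Finset.sum_le_sum e3).trans (le_of_eq ?_)
    rw [Finset.sum_add_distrib, Finset.sum_add_distrib, ← Finset.mul_sum, ← Finset.mul_sum, ← Finset.mul_sum]
    unfold EEx KKx
    congr 2
    congr 1
    rw [Finset.sum_comm]
    refine Finset.sum_congr rfl fun j _ => ?_
    rw [Finset.mul_sum]
  refine hsum.trans ?_
  have k1 : 2 * Real.log N * EEx q0 m0 (N : ℝ) L D lam ≤ 2 * Real.log M * B :=
    mul_le_mul (by linarith) (hEj N (by omega) hNM) (EEx_nonneg _ _ _ _ _ _) (by positivity)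
  have k2 : ∑ j ∈ Ico 1 N, gl j * EEx q0 m0 (j : ℝ) L D lam ≤ Real.log M * B := by
    calc ∑ j ∈ Ico 1 N, gl j * EEx q0 m0 (j : ℝ) L D lam ≤ ∑ j ∈ Ico 1 N, gl j * B := by
          refine Finset.sum_le_sum fun j hj => ?_
          rw [mem_Ico] at hj
          refine mul_le_mul_of_nonneg_left (hEj j hj.1 ?_) (gl_nonneg hj.1)
          have : (j : ℝ) ≤ N := by exact_mod_cast hj.2.le
          linarith
      _ = Real.log N * B := by
          rw [← Finset.sum_mul, gl_sum (by omega)]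
          simp
      _ ≤ _ := mul_le_mul_of_nonneg_right hlN hB0.le
  have k3 : 4 * |S| * KKx q0 L D ≤ 16 * Real.log M * (A * L * Z) := by
    refine mul_le_mul (by linarith) (hK.trans ?_) (KKx_nonneg _ _ _) (by positivity)
    exact mul_le_mul_of_nonneg_left hZ3 (by positivity)
  have k4 : Real.log M * Z ≤ C₂ * M ^ (1 - ε / 20) := by
    calc Real.log M * Z ≤ (C₂ * M ^ (ε / 100)) * Z := mul_le_mul_of_nonneg_right (hlogb M hM) hZ0.le
      _ = C₂ * (M ^ (ε / 100) * Z) := by ring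
      _ ≤ C₂ * M ^ (1 - ε / 20) := by
          refine mul_le_mul_of_nonneg_left ?_ hC₂0.le
          rw [hZ, ← Real.rpow_add hM0]
          exact Real.rpow_le_rpow_of_exponent_le hM1 (by linarith)
  calc _ ≤ 2 * Real.log M * B + 2 * (Real.log M * B) + 16 * Real.log M * (A * L * Z) := by linarith
    _ = (4 * (3 * A + 6 * C₀ + C₁) + 16 * A) * L * (Real.log M * Z) := by rw [hB]; ring
    _ ≤ (4 * (3 * A + 6 * C₀ + C₁) + 16 * A) * L * (C₂ * M ^ (1 - ε / 20)) :=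
        mul_le_mul_of_nonneg_left k4 (by positivity)
    _ = _ := by ring

end Pool.Agent.N407.GN
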