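import Pool.Agent.N782.GN.StmT
import Pool.Agent.H304R3.HK.LamH

/-!
# Project GN (helper782), VAU: Vaughan's identity in `ℤ[i]` (helper407)
-/

set_option autoImplicit false

namespace Pool.Agent.N407.GN

open Finset
open Pool.Agent.N782.GN
open Pool.Agent.H304R3.HK (UH bb LamK)
open Pool.Agent.H304R3.HK.M4 (ii LamK_ii unit_cases iipow_inj norm_assoc norm_iipow)

open Classical in
/-- the divisors of `z` -/
noncomputable def dd (z : ZI) : Finset ZI := (bl (nz z)).filter (fun d => d ∣ z)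

theorem nz_mul' (a b : ZI) : nz (a * b) = nz a * nz b := by
  unfold nz
  rw [Zsqrtd.norm_mul]
  push_cast
  ring

theorem one_le_nz' {z : ZI} (hz : z ≠ 0) : 1 ≤ nz z := by
  have h := GaussianInt.norm_pos.2 hz
  unfold nz
  exact_mod_cast h

theorem mem_dd {z : ZI} (hz : z ≠ 0) (d : ZI) : d ∈ dd z ↔ d ∣ z := by
  classical
  unfold dd
  rw [mem_filter, mem_bl, and_iff_right_iff_imp]
  rintro ⟨e, rfl⟩
  have hd : d ≠ 0 := left_ne_zero_of_mul hz
  have he : e ≠ 0 := right_ne_zero_of_mul hz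
  refine ⟨hd, ?_⟩
  rw [nz_mul']
  nlinarith [one_le_nz' hd, one_le_nz' he]

theorem mul_quo {b z : ZI} (hb : b ∣ z) : b * (z / b) = z := by
  rcases eq_or_ne b 0 with h | h
  · obtain ⟨c, rfl⟩ := hb
    rw [h]
    simp
  · exact EuclideanDomain.mul_div_cancel' h hb

theorem quo_eq {b z u : ZI} (hb : b ≠ 0) (h : b * u = z) : z / b = u := by
  rw [← h]
  exact mul_div_cancel_left₀ u hb

theorem quo_ne {b z : ZI} (hz : z ≠ 0) (hb : b ∣ z) : z / b ≠ 0 := by
  intro h
  have := mul_quo hb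
  rw [h, mul_zero] at this
  exact hz this.symm

theorem dvd_quo {b c z : ZI} (hb0 : b ≠ 0) (hb : b ∣ z) : c ∣ z / b ↔ b * c ∣ z := by
  constructor
  · rintro ⟨d, hd⟩
    refine ⟨d, ?_⟩
    rw [mul_assoc, ← hd, mul_quo hb]
  · rintro ⟨d, hd⟩
    refine ⟨d, ?_⟩
    apply quo_eq hb0
    rw [hd, mul_assoc]

theorem LamK_iipow (j : ℕ) (a : ZI) : LamK (ii ^ j * a) = LamK a := by
  induction j with
  | zero => rw [pow_zero, one_mul]
  | succ j ih => rw [pow_succ, mul_comm (ii ^ j) ii, mul_assoc, LamK_ii, ih]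

theorem nz_iipow (j : ℕ) (a : ZI) : nz (ii ^ j * a) = nz a := by
  unfold nz
  rw [Zsqrtd.norm_mul, norm_iipow, one_mul]

theorem iipow_ne (j : ℕ) : (ii ^ j : ZI) ≠ 0 := by
  intro h
  have := norm_iipow j
  rw [h] at this
  simp at this

open Classical in
/-- the sum over the associates of `z` -/
theorem sum_assoc {z : ZI} (hz : z ≠ 0) (f : ZI → ℝ) (hf : ∀ j : ℕ, f (ii ^ j * z) = f z) :
    ∑ c ∈ dd z, (if IsUnit (z / c) then f c else 0) = 4 * f z := by
  rw [← Finset.sum_filter]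
  have h1 : (dd z).filter (fun c => IsUnit (z / c)) = (range 4).image (fun j => (ii ^ j * z : ZI)) := by
    ext c
    rw [mem_filter, mem_dd hz, mem_image]
    constructor
    · rintro ⟨h1, h2⟩
      have h3 := mul_quo h1
      have h4 : (Zsqrtd.norm (z / c)) = 1 := by
        rw [← Int.natAbs_of_nonneg (GaussianInt.norm_nonneg _), Zsqrtd.norm_eq_one_iff.2 h2]
        rfl
      obtain ⟨v, hv⟩ := h2
      have h5 : (Zsqrtd.norm ((v⁻¹ : ZIˣ) : ZI)) = 1 := by
        rw [← Int.natAbs_of_nonneg (GaussianInt.norm_nonneg _), Zsqrtd.norm_eq_one_iff.2 (Units.isUnit _)]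
        rfl
      obtain ⟨j, hj, hj2⟩ := unit_cases h5
      refine ⟨j, mem_range.2 hj, ?_⟩
      rw [← hj2, ← h3, ← hv]
      rw [mul_comm c, ← mul_assoc, Units.inv_mul, one_mul]
    · rintro ⟨j, hj, rfl⟩
      have hu : ii ^ (3 * j) * (ii ^ j * z) = z := by
        rw [← mul_assoc, ← pow_add, show 3 * j + j = 4 * j by ring, pow_mul,
          Pool.Agent.H304R3.HK.M4.ii4, one_pow, one_mul]
      refine ⟨⟨ii ^ (3 * j), by rw [mul_comm]; exact hu.symm⟩, ?_⟩
      have h2 : z / (ii ^ j * z) = ii ^ (3 * j) := by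
        apply quo_eq (mul_ne_zero (iipow_ne j) hz)
        rw [mul_comm]
        exact hu
      rw [h2]
      refine IsUnit.pow _ ⟨⟨ii, ii ^ 3, ?_, ?_⟩, rfl⟩
      · rw [← pow_succ', Pool.Agent.H304R3.HK.M4.ii4]
      · rw [← pow_succ, Pool.Agent.H304R3.HK.M4.ii4]
  rw [h1, Finset.sum_image]
  · rw [Finset.sum_congr rfl (fun j _ => hf j), Finset.sum_const, card_range, nsmul_eq_mul]
    norm_num
  · intro a ha b hb h
    rw [mem_coe, mem_range] at ha hb
    exact iipow_inj ha hb (mul_right_cancel₀ hz h)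

open Classical in
/-- change of variables `z = b u` -/
theorem conv1 {X : ℝ} (F : ZI → ℝ) (hF : ∀ z, X < nz z → F z = 0) {b : ZI} (hb : b ≠ 0) (g : ZI → ℝ) :
    ∑ u ∈ bl X, g u * F (b * u) = ∑ z ∈ bl X, (if b ∣ z then g (z / b) * F z else 0) := by
  rw [← Finset.sum_filter]
  have h1 : ∑ u ∈ bl X, g u * F (b * u) = ∑ u ∈ (bl X).filter (fun u => nz (b * u) ≤ X), g u * F (b * u) := by
    rw [Finset.sum_filter]
    refine Finset.sum_congr rfl fun u _ => ?_
    split_ifs with h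
    · rfl
    · rw [hF _ (lt_of_not_ge h), mul_zero]
  rw [h1]
  refine Finset.sum_nbij' (fun u => b * u) (fun z => z / b) ?_ ?_ ?_ ?_ ?_
  · intro u hu
    rw [mem_filter, mem_bl] at hu
    rw [mem_filter, mem_bl]
    exact ⟨⟨mul_ne_zero hb hu.1.1, hu.2⟩, dvd_mul_right b u⟩
  · intro z hz
    rw [mem_filter, mem_bl] at hz
    rw [mem_filter, mem_bl, mul_quo hz.2]
    refine ⟨⟨quo_ne hz.1.1 hz.2, ?_⟩, hz.1.2⟩
    have h2 := mul_quo hz.2
    have h3 : nz (b * (z / b)) ≤ X := by rw [h2]; exact hz.1.2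
    rw [nz_mul'] at h3
    nlinarith [one_le_nz' hb, nz_nonneg (z / b)]
  · intro u _
    exact quo_eq hb rfl
  · intro z hz
    rw [mem_filter] at hz
    exact mul_quo hz.2
  · intro u _
    rw [show b * u / b = u from quo_eq hb rfl]

open Classical in
theorem conv2 {X : ℝ} (F : ZI → ℝ) (hF : ∀ z, X < nz z → F z = 0) (S : Finset ZI) (hS : ∀ b ∈ S, b ≠ 0)
    (g : ZI → ZI → ℝ) :
    ∑ b ∈ S, ∑ u ∈ bl X, g b u * F (b * u) =
      ∑ z ∈ bl X, (∑ b ∈ S, if b ∣ z then g b (z / b) else 0) * F z := by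
  rw [Finset.sum_congr rfl (fun b hb => conv1 F hF (hS b hb) (g b)), Finset.sum_comm]
  refine Finset.sum_congr rfl fun z _ => ?_
  rw [Finset.sum_mul]
  refine Finset.sum_congr rfl fun b _ => ?_
  split_ifs <;> simp

open Classical in
theorem conv3 {X : ℝ} (F : ZI → ℝ) (hF : ∀ z, X < nz z → F z = 0) (S T : Finset ZI) (hS : ∀ b ∈ S, b ≠ 0)
    (hT : ∀ b ∈ T, b ≠ 0) (g : ZI → ZI → ℝ) :
    ∑ b ∈ S, ∑ c ∈ T, ∑ u ∈ bl X, g b c * F (b * c * u) =
      ∑ z ∈ bl X, (∑ b ∈ S, ∑ c ∈ T, if b * c ∣ z then g b c else 0) * F z := by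
  have h1 : ∀ b ∈ S, ∀ c ∈ T, ∑ u ∈ bl X, g b c * F (b * c * u) =
      ∑ z ∈ bl X, (if b * c ∣ z then g b c * F z else 0) := by
    intro b hb c hc
    exact conv1 F hF (mul_ne_zero (hS b hb) (hT c hc)) (fun _ => g b c)
  rw [Finset.sum_congr rfl (fun b hb => Finset.sum_congr rfl (fun c hc => h1 b hb c hc))]
  rw [Finset.sum_congr rfl (fun b _ => Finset.sum_comm), Finset.sum_comm]
  refine Finset.sum_congr rfl fun z _ => ?_
  rw [Finset.sum_mul]
  refine Finset.sum_congr rfl fun b _ => ?_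
  rw [Finset.sum_mul]
  refine Finset.sum_congr rfl fun c _ => ?_
  split_ifs <;> simp

open Classical in
/-- a sum over `bl Y` restricted to the divisors of `z` -/
theorem sum_bl_dvd {z : ZI} (hz : z ≠ 0) (Y : ℝ) (f : ZI → ℝ) :
    ∑ b ∈ bl Y, (if b ∣ z then f b else 0) = ∑ b ∈ dd z, (if nz b ≤ Y then f b else 0) := by
  rw [← Finset.sum_filter, ← Finset.sum_filter]
  congr 1
  ext b
  rw [mem_filter, mem_filter, mem_bl, mem_dd hz]
  constructor
  · rintro ⟨⟨-, h2⟩, h3⟩
    exact ⟨h3, h2⟩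
  · rintro ⟨h3, h2⟩
    exact ⟨⟨fun h => hz (zero_dvd_iff.1 (h ▸ h3)), h2⟩, h3⟩

theorem dd_ne {z : ZI} (hz : z ≠ 0) {b : ZI} (hb : b ∈ dd z) : b ≠ 0 := by
  rintro rfl
  exact hz (zero_dvd_iff.1 ((mem_dd hz _).1 hb))

open Classical in
/-- sum over the divisors of the quotient -/
theorem sum_dd_quo {z b : ZI} (hz : z ≠ 0) (hb : b ∈ dd z) (f : ZI → ℝ) :
    ∑ c ∈ dd (z / b), f c = ∑ c ∈ dd z, (if b * c ∣ z then f c else 0) := by
  rw [← Finset.sum_filter]
  congr 1
  have hb1 := (mem_dd hz _).1 hb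
  have hb0 := dd_ne hz hb
  ext c
  rw [mem_filter, mem_dd (quo_ne hz hb1), mem_dd hz, dvd_quo hb0 hb1]
  constructor
  · intro h
    exact ⟨(dvd_mul_left c b).trans h, h⟩
  · rintro ⟨-, h⟩
    exact h

open Classical in
theorem aW_eq (W : ℝ) (v : ZI) : aW W v = ∑ c ∈ dd v, (if W < nz c then LamK c else 0) := by
  unfold aW dd
  rw [← Finset.sum_filter, Finset.filter_filter]

open Classical in
/-- the main identity -/
theorem key (hm : S_MUB) {z : ZI} (hz : z ≠ 0) (W : ℝ) :
    ∑ b ∈ dd z, mu b * aW W (z / b) = 16 * (if W < nz z then LamK z else 0) := by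
  obtain ⟨-, -, -, hmu, -, -⟩ := hm
  have h1 : ∀ b ∈ dd z, mu b * aW W (z / b) =
      ∑ c ∈ dd z, (if b * c ∣ z then mu b * (if W < nz c then LamK c else 0) else 0) := by
    intro b hb
    rw [aW_eq, sum_dd_quo hz hb, Finset.mul_sum]
    refine Finset.sum_congr rfl fun c _ => ?_
    split_ifs <;> simp
  rw [Finset.sum_congr rfl h1, Finset.sum_comm]
  have h2 : ∀ c ∈ dd z, ∑ b ∈ dd z, (if b * c ∣ z then mu b * (if W < nz c then LamK c else 0) else 0) =
      (if IsUnit (z / c) then 4 * (if W < nz c then LamK c else 0) else 0) := by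
    intro c hc
    have hc1 := (mem_dd hz _).1 hc
    have h3 := sum_dd_quo hz hc (fun b => mu b)
    have h4 := hmu (z / c) (quo_ne hz hc1)
    have h5 : ∑ b ∈ dd (z / c), mu b = if IsUnit (z / c) then 4 else 0 := h4
    rw [h5] at h3
    have h6 : ∑ b ∈ dd z, (if b * c ∣ z then mu b * (if W < nz c then LamK c else 0) else 0) =
        (∑ b ∈ dd z, (if c * b ∣ z then mu b else 0)) * (if W < nz c then LamK c else 0) := by
      rw [Finset.sum_mul]
      refine Finset.sum_congr rfl fun b _ => ?_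
      rw [mul_comm c b]
      split_ifs <;> simp
    rw [h6, ← h3]
    split_ifs <;> simp
  rw [Finset.sum_congr rfl h2, sum_assoc hz (fun c => 4 * (if W < nz c then LamK c else 0))]
  · ring
  · intro j
    simp only [nz_iipow, LamK_iipow]

open Classical in
theorem aW_log (hm : S_MUB) {z : ZI} (hz : z ≠ 0) (W : ℝ) {b : ZI} (hb : b ∈ dd z) :
    aW W (z / b) = 4 * Real.log (nz (z / b)) -
      ∑ c ∈ dd z, (if b * c ∣ z then (if nz c ≤ W then LamK c else 0) else 0) := by
  obtain ⟨-, -, -, -, hL, -⟩ := hm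
  have hb1 := (mem_dd hz _).1 hb
  have h1 : ∑ c ∈ dd (z / b), LamK c = 4 * Real.log (nz (z / b)) := hL (z / b) (quo_ne hz hb1)
  rw [← h1, aW_eq, ← sum_dd_quo hz hb (fun c => if nz c ≤ W then LamK c else 0), eq_sub_iff_add_eq,
    ← Finset.sum_add_distrib]
  refine Finset.sum_congr rfl fun c _ => ?_
  rcases le_or_gt (nz c) W with h | h
  · rw [if_neg (not_lt.2 h), if_pos h, zero_add]
  · rw [if_pos h, if_neg (not_le.2 h), add_zero]

open Classical in
/-- the identity for one `z` -/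
theorem per (hm : S_MUB) {X Y W : ℝ} {z : ZI} (hz : z ≠ 0) (hX : nz z ≤ X) :
    LamK z = (if nz z ≤ W then LamK z else 0) +
      1 / 4 * (∑ b ∈ bl Y, if b ∣ z then mu b * Real.log (nz (z / b)) else 0) -
      1 / 16 * (∑ b ∈ bl Y, ∑ c ∈ bl W, if b * c ∣ z then mu b * LamK c else 0) +
      1 / 16 * (∑ b ∈ (bl X).filter (fun b => Y < nz b), if b ∣ z then mu b * aW W (z / b) else 0) := by
  have hk := key hm hz W
  have h1 : ∑ b ∈ (bl X).filter (fun b => Y < nz b), (if b ∣ z then mu b * aW W (z / b) else 0) =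
      ∑ b ∈ dd z, (if Y < nz b then mu b * aW W (z / b) else 0) := by
    rw [Finset.sum_filter]
    have e : ∀ b ∈ bl X, (if Y < nz b then (if b ∣ z then mu b * aW W (z / b) else 0) else 0) =
        (if b ∣ z then (if Y < nz b then mu b * aW W (z / b) else 0) else 0) := by
      intro b _
      split_ifs <;> rfl
    rw [Finset.sum_congr rfl e, sum_bl_dvd hz X]
    refine Finset.sum_congr rfl fun b hb => ?_
    rw [if_pos]
    obtain ⟨c, hc⟩ := (mem_dd hz _).1 hb
    have hb0 := dd_ne hz hb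
    have hc0 : c ≠ 0 := by
      rintro rfl
      rw [mul_zero] at hc
      exact hz hc
    rw [hc, nz_mul'] at hX
    nlinarith [one_le_nz' hb0, one_le_nz' hc0]
  have h2 := sum_bl_dvd hz Y (fun b => mu b * Real.log (nz (z / b)))
  have h3 : ∑ b ∈ bl Y, ∑ c ∈ bl W, (if b * c ∣ z then mu b * LamK c else 0) =
      ∑ b ∈ dd z, (if nz b ≤ Y then mu b *
        ∑ c ∈ dd z, (if b * c ∣ z then (if nz c ≤ W then LamK c else 0) else 0) else 0) := by
    have e : ∀ b ∈ bl Y, ∑ c ∈ bl W, (if b * c ∣ z then mu b * LamK c else 0) =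
        (if b ∣ z then mu b *
          ∑ c ∈ dd z, (if b * c ∣ z then (if nz c ≤ W then LamK c else 0) else 0) else 0) := by
      intro b hb
      split_ifs with hbz
      · have h4 := sum_bl_dvd hz W (fun c => if b * c ∣ z then mu b * LamK c else 0)
        have h5 : ∀ c ∈ bl W, (if b * c ∣ z then mu b * LamK c else 0) =
            (if c ∣ z then (if b * c ∣ z then mu b * LamK c else 0) else 0) := by
          intro c _
          by_cases h : b * c ∣ z
          · rw [if_pos h, if_pos ((dvd_mul_left c b).trans h)]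
          · rw [if_neg h]
            split_ifs <;> rfl
        rw [Finset.sum_congr rfl h5, h4, Finset.mul_sum]
        refine Finset.sum_congr rfl fun c _ => ?_
        split_ifs <;> simp
      · refine Finset.sum_eq_zero fun c _ => ?_
        rw [if_neg]
        intro h
        exact hbz ((dvd_mul_right b c).trans h)
    rw [Finset.sum_congr rfl e, sum_bl_dvd hz Y]
  rw [h1, h2, h3]
  have h4 : ∑ b ∈ dd z, mu b * aW W (z / b) =
      ∑ b ∈ dd z, (if Y < nz b then mu b * aW W (z / b) else 0) +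
      (4 * ∑ b ∈ dd z, (if nz b ≤ Y then mu b * Real.log (nz (z / b)) else 0) -
        ∑ b ∈ dd z, (if nz b ≤ Y then mu b *
          ∑ c ∈ dd z, (if b * c ∣ z then (if nz c ≤ W then LamK c else 0) else 0) else 0)) := by
    rw [Finset.mul_sum, ← Finset.sum_sub_distrib, ← Finset.sum_add_distrib]
    refine Finset.sum_congr rfl fun b hb => ?_
    rcases le_or_gt (nz b) Y with h | h
    · rw [if_neg (not_lt.2 h), if_pos h, if_pos h, aW_log hm hz W hb]
      ring
    · rw [if_pos h, if_neg (not_le.2 h), if_neg (not_le.2 h)]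
      ring
  rw [hk] at h4
  rcases le_or_gt (nz z) W with h | h
  · rw [if_neg (not_lt.2 h)] at h4
    rw [if_pos h]
    linarith
  · rw [if_pos h] at h4
    rw [if_neg (not_le.2 h)]
    linarith

/-- (VAU) Vaughan's identity -/
theorem vau (hm : S_MUB) : S_VAU := by
  classical
  intro F X Y W hY hW hX hF0 hF
  have hne : ∀ (V : ℝ), ∀ b ∈ bl V, b ≠ 0 := fun V b hb => ((mem_bl V b).1 hb).1
  rw [conv2 F hF (bl Y) (hne Y) (fun b u => mu b * Real.log (nz u)),
    conv3 F hF (bl Y) (bl W) (hne Y) (hne W) (fun b c => mu b * LamK c),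
    conv2 F hF ((bl X).filter (fun b => Y < nz b)) (fun b hb => hne X b (Finset.mem_filter.1 hb).1)
      (fun b v => mu b * aW W v)]
  have h0 : ∑ z ∈ bl W, LamK z * F z = ∑ z ∈ bl X, (if nz z ≤ W then LamK z else 0) * F z := by
    have h1 : ∑ z ∈ bl W, LamK z * F z = ∑ z ∈ (bl W).filter (fun z => nz z ≤ X), LamK z * F z := by
      rw [Finset.sum_filter]
      refine Finset.sum_congr rfl fun z _ => ?_
      split_ifs with h
      · rfl
      · rw [hF z (lt_of_not_ge h), mul_zero]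
    have h2 : (bl W).filter (fun z => nz z ≤ X) = (bl X).filter (fun z => nz z ≤ W) := by
      ext z
      rw [mem_filter, mem_filter, mem_bl, mem_bl]
      tauto
    rw [h1, h2, Finset.sum_filter]
    refine Finset.sum_congr rfl fun z _ => ?_
    split_ifs <;> simp
  rw [h0, Finset.mul_sum, Finset.mul_sum, Finset.mul_sum, ← Finset.sum_add_distrib,
    ← Finset.sum_sub_distrib, ← Finset.sum_add_distrib]
  refine Finset.sum_congr rfl fun z hz => ?_
  rw [mem_bl] at hz
  have h := per hm (X := X) (Y := Y) (W := W) hz.1 hz.2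
  linear_combination (F z) * h

end Pool.Agent.N407.GN
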